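import Mathlib

/-!
# The tree action

Letters are triples `(x, c, d)` with `x` three binary digits.  `Tf v` adds the vector `v` to the
digits (with carry), `Ff v` and `Df v` change at most one of the bits `c`, `d` respectively.
-/

set_option autoImplicit false

namespace Pool.Agent.W380.WB

/-- triples of binary digits -/
abbrev Dg := Fin 3 → Bool
/-- the letters -/
abbrev X := Dg × Bool × Bool
/-- integer vectors -/
abbrev V := Fin 3 → ℤ

/-- the parities of the coordinates -/
def par (v : V) : Dg := fun i => decide (v i % 2 = 1)
/-- digits as integers -/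
def io (x : Dg) : V := fun i => if x i then 1 else 0
/-- the first unit vector -/
def e1 : V := fun i => if i = 0 then 1 else 0
/-- half of a vector, rounded down -/
def half (v : V) : V := fun i => v i / 2

/-- addition of `v` with carry -/
def Tf : V → List X → List X
  | _, [] => []
  | v, (x, c, d) :: w => (par (v + io x), c, d) :: Tf (half (v + io x)) w

/-- the conditional lamps -/
def Ff : V → List X → List X
  | _, [] => []
  | v, (x, c, d) :: w =>
    if x = par v then
      (if c = false ∧ d = false then (x, c, d) :: Ff (half v) w else (x, c, d) :: w)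
    else if x = par (v + e1) then (x, !c, d) :: w else (x, c, d) :: w

/-- the unconditional lamps -/
def Df : V → List X → List X
  | _, [] => []
  | v, (x, c, d) :: w =>
    if x = par v then (x, c, d) :: Df (half v) w
    else if x = par (v + e1) then (x, c, !d) :: w else (x, c, d) :: w

theorem par_io (x : Dg) : par (io x) = x := by
  funext i
  unfold par io
  cases x i <;> simp

theorem half_io (x : Dg) : half (io x) = 0 := by
  funext i
  unfold half io
  cases x i <;> simp

theorem io_par (v : V) (i : Fin 3) : io (par v) i = v i % 2 := by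
  unfold par io
  rcases Int.emod_two_eq_zero_or_one (v i) with h | h <;> simp [h]

theorem par_add_io (u v : V) : par (u + io (par v)) = par (u + v) := by
  funext i
  simp only [par, Pi.add_apply, io_par, decide_eq_decide]
  omega

theorem half_add (u v : V) : half (u + v) = half (u + io (par v)) + half v := by
  funext i
  simp only [half, Pi.add_apply, io_par]
  omega

theorem par_eq_par_iff {u v : V} : par u = par v ↔ ∀ i, u i % 2 = v i % 2 := by
  constructor
  · intro h i
    have h1 := congrFun h i
    simp only [par, decide_eq_decide] at h1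
    omega
  · intro h
    funext i
    simp only [par, decide_eq_decide]
    rw [h i]

theorem par_add_left_inj (u v w : V) : par (u + v) = par (u + w) ↔ par v = par w := by
  rw [par_eq_par_iff, par_eq_par_iff]
  constructor
  · intro h i
    have := h i
    simp only [Pi.add_apply] at this
    omega
  · intro h i
    have := h i
    simp only [Pi.add_apply]
    omega

theorem par_ne (v : V) : par v ≠ par (v + e1) := by
  intro h
  have := par_eq_par_iff.1 h 0
  simp only [Pi.add_apply, e1] at this
  simp at this
  omega

theorem Tf_zero (w : List X) : Tf 0 w = w := by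
  induction w with
  | nil => rfl
  | cons l w ih =>
    obtain ⟨x, c, d⟩ := l
    simp only [Tf, zero_add, par_io, half_io, ih]

theorem Tf_add (u v : V) (w : List X) : Tf (u + v) w = Tf u (Tf v w) := by
  induction w generalizing u v with
  | nil => rfl
  | cons l w ih =>
    obtain ⟨x, c, d⟩ := l
    simp only [Tf]
    rw [← ih, par_add_io, add_assoc, half_add u (v + io x)]

theorem Ff_invol (v : V) (w : List X) : Ff v (Ff v w) = w := by
  induction w generalizing v with
  | nil => rfl
  | cons l w ih =>
    obtain ⟨x, c, d⟩ := l
    by_cases h1 : x = par v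
    · by_cases h2 : c = false ∧ d = false
      · simp only [Ff, if_pos h1, if_pos h2, ih]
      · simp only [Ff, if_pos h1, if_neg h2]
    · by_cases h3 : x = par (v + e1)
      · simp only [Ff, if_neg h1, if_pos h3, Bool.not_not]
      · simp only [Ff, if_neg h1, if_neg h3]

theorem Df_invol (v : V) (w : List X) : Df v (Df v w) = w := by
  induction w generalizing v with
  | nil => rfl
  | cons l w ih =>
    obtain ⟨x, c, d⟩ := l
    by_cases h1 : x = par v
    · simp only [Df, if_pos h1, ih]
    · by_cases h3 : x = par (v + e1)
      · simp only [Df, if_neg h1, if_pos h3, Bool.not_not]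
      · simp only [Df, if_neg h1, if_neg h3]

theorem cond_iff (u v : V) (x : Dg) : par (u + io x) = par (u + v) ↔ x = par v := by
  rw [par_add_left_inj, par_io]

theorem Tf_Ff (u v : V) (w : List X) : Tf u (Ff v w) = Ff (u + v) (Tf u w) := by
  induction w generalizing u v with
  | nil => rfl
  | cons l w ih =>
    obtain ⟨x, c, d⟩ := l
    have k1 := cond_iff u v x
    have k2 := cond_iff u (v + e1) x
    rw [← add_assoc] at k2
    simp only [Ff, Tf]
    by_cases h1 : x = par v
    · rw [if_pos h1, if_pos (k1.2 h1)]
      by_cases h2 : c = false ∧ d = false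
      · rw [if_pos h2, if_pos h2]
        simp only [Tf]
        rw [ih, half_add u v, ← h1]
      · rw [if_neg h2, if_neg h2]
        simp only [Tf]
    · rw [if_neg h1, if_neg (fun h => h1 (k1.1 h))]
      by_cases h3 : x = par (v + e1)
      · rw [if_pos h3, if_pos (k2.2 h3)]
        simp only [Tf]
      · rw [if_neg h3, if_neg (fun h => h3 (k2.1 h))]
        simp only [Tf]

theorem Tf_Df (u v : V) (w : List X) : Tf u (Df v w) = Df (u + v) (Tf u w) := by
  induction w generalizing u v with
  | nil => rfl
  | cons l w ih =>
    obtain ⟨x, c, d⟩ := l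
    have k1 := cond_iff u v x
    have k2 := cond_iff u (v + e1) x
    rw [← add_assoc] at k2
    simp only [Df, Tf]
    by_cases h1 : x = par v
    · rw [if_pos h1, if_pos (k1.2 h1)]
      simp only [Tf]
      rw [ih, half_add u v, ← h1]
    · rw [if_neg h1, if_neg (fun h => h1 (k1.1 h))]
      by_cases h3 : x = par (v + e1)
      · rw [if_pos h3, if_pos (k2.2 h3)]
        simp only [Tf]
      · rw [if_neg h3, if_neg (fun h => h3 (k2.1 h))]
        simp only [Tf]

/-- `Tf` as a permutation -/
def T (v : V) : Equiv.Perm (List X) where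
  toFun := Tf v
  invFun := Tf (-v)
  left_inv w := by rw [← Tf_add, neg_add_cancel, Tf_zero]
  right_inv w := by rw [← Tf_add, add_neg_cancel, Tf_zero]

/-- `Ff` as a permutation -/
def F (v : V) : Equiv.Perm (List X) := Function.Involutive.toPerm (Ff v) (Ff_invol v)

/-- `Df` as a permutation -/
def D (v : V) : Equiv.Perm (List X) := Function.Involutive.toPerm (Df v) (Df_invol v)

@[simp] theorem T_apply (v : V) (w : List X) : T v w = Tf v w := rfl
@[simp] theorem F_apply (v : V) (w : List X) : F v w = Ff v w := rfl
@[simp] theorem D_apply (v : V) (w : List X) : D v w = Df v w := rfl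

theorem T_zero : T 0 = 1 := by
  ext1 w; exact Tf_zero w

theorem T_add (u v : V) : T (u + v) = T u * T v := by
  ext1 w; exact Tf_add u v w

theorem T_neg (v : V) : T (-v) = (T v)⁻¹ := by
  rw [eq_inv_iff_mul_eq_one, ← T_add, neg_add_cancel, T_zero]

theorem T_mul_F (u v : V) : T u * F v = F (u + v) * T u := by
  ext1 w; exact Tf_Ff u v w

theorem T_mul_D (u v : V) : T u * D v = D (u + v) * T u := by
  ext1 w; exact Tf_Df u v w

theorem F_sq (v : V) : F v * F v = 1 := by
  ext1 w; exact Ff_invol v w

theorem D_sq (v : V) : D v * D v = 1 := by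
  ext1 w; exact Df_invol v w

theorem F_inv (v : V) : (F v)⁻¹ = F v := inv_eq_of_mul_eq_one_right (F_sq v)
theorem D_inv (v : V) : (D v)⁻¹ = D v := inv_eq_of_mul_eq_one_right (D_sq v)

/-- the unit vectors -/
def ee (i : Fin 3) : V := Pi.single i 1

/-- the generators of the group -/
def gens : Set (Equiv.Perm (List X)) := {F 0, D 0} ∪ Set.range fun i => T (ee i)

/-- the group -/
def G : Subgroup (Equiv.Perm (List X)) := Subgroup.closure gens

theorem F0_mem : F 0 ∈ G := Subgroup.subset_closure (Or.inl (Or.inl rfl))
theorem D0_mem : D 0 ∈ G := Subgroup.subset_closure (Or.inl (Or.inr rfl))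

theorem T_nsmul (v : V) (n : ℕ) : T (n • v) = T v ^ n := by
  induction n with
  | zero => simp [T_zero]
  | succ n ih => rw [succ_nsmul, T_add, ih, pow_succ]

theorem T_zsmul (v : V) (n : ℤ) : T (n • v) = T v ^ n := by
  cases n with
  | ofNat n => simpa using T_nsmul v n
  | negSucc n =>
    rw [negSucc_zsmul, T_neg, T_nsmul, zpow_negSucc]

theorem T_mem (v : V) : T v ∈ G := by
  have hv : v = v 0 • ee 0 + (v 1 • ee 1 + v 2 • ee 2) := by
    funext i
    fin_cases i <;> simp [ee]
  rw [hv, T_add, T_add, T_zsmul, T_zsmul, T_zsmul]
  have h : ∀ i, T (ee i) ∈ G := fun i => Subgroup.subset_closure (Or.inr ⟨i, rfl⟩)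
  exact G.mul_mem (G.zpow_mem (h 0) _) (G.mul_mem (G.zpow_mem (h 1) _) (G.zpow_mem (h 2) _))

theorem F_eq (v : V) : F v = T v * F 0 * (T v)⁻¹ := by
  rw [T_mul_F, add_zero, mul_inv_cancel_right]

theorem D_eq (v : V) : D v = T v * D 0 * (T v)⁻¹ := by
  rw [T_mul_D, add_zero, mul_inv_cancel_right]

theorem F_mem (v : V) : F v ∈ G := by
  rw [F_eq]
  exact G.mul_mem (G.mul_mem (T_mem v) F0_mem) (G.inv_mem (T_mem v))

theorem D_mem (v : V) : D v ∈ G := by
  rw [D_eq]
  exact G.mul_mem (G.mul_mem (T_mem v) D0_mem) (G.inv_mem (T_mem v))

end Pool.Agent.W380.WB
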