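import Pool.Agent.W380.WB.Fin

/-! # The group is amenable -/

set_option autoImplicit false

namespace Pool.Agent.W380.WB

/-- Følner's condition: for every finite set `S` of elements and every `ε > 0` there is a nonempty
finite set `E` with `|g E Δ E| ≤ ε |E|` for all `g ∈ S`. -/
def Amenable (H : Type) [Group H] : Prop :=
  ∀ (S : Set H), S.Finite → ∀ ε : ℝ, 0 < ε → ∃ E : Set H, E.Finite ∧ E.Nonempty ∧
    ∀ g ∈ S, ((symmDiff ((fun x => g * x) '' E) E).ncard : ℝ) ≤ ε * E.ncard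

section General

variable {H : Type} [Group H]

theorem ncard_right (E : Set H) (g : H) : ((fun x => x * g) '' E).ncard = E.ncard :=
  Set.ncard_image_of_injective _ (mul_left_injective g)

theorem diff_comm_card {E E' : Set H} (hE : E.Finite) (hE' : E'.Finite)
    (h : E.ncard = E'.ncard) : (E \ E').ncard = (E' \ E).ncard := by
  have h1 := Set.ncard_inter_add_ncard_diff_eq_ncard E E' hE
  have h2 := Set.ncard_inter_add_ncard_diff_eq_ncard E' E hE'
  rw [Set.inter_comm] at h2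
  omega

theorem right_bound (S : Set H) (hS : Subgroup.closure S = ⊤) (g : H) :
    ∃ C : ℕ, ∀ E : Set H, E.Finite → ∀ δ : ℕ,
      (∀ s ∈ S, (((fun x => x * s) '' E) \ E).ncard ≤ δ) →
      (((fun x => x * g) '' E) \ E).ncard ≤ C * δ := by
  have hg : g ∈ Subgroup.closure S := by rw [hS]; exact Subgroup.mem_top g
  induction hg using Subgroup.closure_induction with
  | mem g hg => exact ⟨1, fun E _ δ h => by simpa using h g hg⟩
  | one => exact ⟨0, fun E _ δ h => by simp⟩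
  | mul x y _ _ hx hy =>
    obtain ⟨C, hC⟩ := hx
    obtain ⟨C', hC'⟩ := hy
    refine ⟨C + C', fun E hE δ h => ?_⟩
    have h1 := hC E hE δ h
    have h2 := hC' E hE δ h
    have h3 : ((fun z => z * (x * y)) '' E) \ E ⊆
        (fun z => z * y) '' (((fun z => z * x) '' E) \ E) ∪ (((fun z => z * y) '' E) \ E) := by
      rintro _ ⟨⟨z, hz, rfl⟩, hz'⟩
      by_cases h4 : z * x ∈ E
      · right
        exact ⟨⟨z * x, h4, by simp [mul_assoc]⟩, hz'⟩
      · left
        exact ⟨z * x, ⟨⟨z, hz, rfl⟩, h4⟩, by simp [mul_assoc]⟩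
    have hf1 : ((fun z => z * y) '' (((fun z => z * x) '' E) \ E)).Finite :=
      ((hE.image _).diff).image _
    have hf2 : (((fun z => z * y) '' E) \ E).Finite := (hE.image _).diff
    calc (((fun z => z * (x * y)) '' E) \ E).ncard
        ≤ ((fun z => z * y) '' (((fun z => z * x) '' E) \ E) ∪
            (((fun z => z * y) '' E) \ E)).ncard := Set.ncard_le_ncard h3 (hf1.union hf2)
      _ ≤ _ := Set.ncard_union_le _ _
      _ = (((fun z => z * x) '' E) \ E).ncard + (((fun z => z * y) '' E) \ E).ncard := by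
          rw [ncard_right]
      _ ≤ C * δ + C' * δ := add_le_add h1 h2
      _ = (C + C') * δ := by ring
  | inv x _ hx =>
    obtain ⟨C, hC⟩ := hx
    refine ⟨C, fun E hE δ h => ?_⟩
    have h1 := hC E hE δ h
    have h2 : (fun z => z * x) '' (((fun z => z * x⁻¹) '' E) \ E) = E \ ((fun z => z * x) '' E) := by
      ext z
      constructor
      · rintro ⟨_, ⟨⟨y, hy, rfl⟩, h3⟩, rfl⟩
        refine ⟨by simpa using hy, ?_⟩
        rintro ⟨t, ht, ht'⟩
        have : t = y * x⁻¹ := mul_right_cancel ht'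
        apply h3
        show y * x⁻¹ ∈ E
        rw [← this]
        exact ht
      · rintro ⟨h3, h4⟩
        refine ⟨z * x⁻¹, ⟨⟨z, h3, rfl⟩, fun h5 => h4 ⟨z * x⁻¹, h5, by simp⟩⟩, by simp⟩
    have h3 := ncard_right (((fun z => z * x⁻¹) '' E) \ E) x
    rw [h2] at h3
    rw [← h3, diff_comm_card hE (hE.image _) (ncard_right E x).symm]
    exact h1

/-- Følner's condition from right Følner sets for generators. -/
theorem amenable_of_right (S : Set H) (hS : Subgroup.closure S = ⊤)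
    (h : ∀ ε : ℝ, 0 < ε → ∃ (E : Set H) (δ : ℕ), E.Finite ∧ E.Nonempty ∧ (δ : ℝ) ≤ ε * E.ncard ∧
      ∀ s ∈ S, (((fun x => x * s) '' E) \ E).ncard ≤ δ) : Amenable H := by
  intro S' hS' ε hε
  choose C hC using right_bound S hS
  obtain ⟨M, hM⟩ : ∃ M : ℕ, ∀ g ∈ S', C g⁻¹ ≤ M := by
    obtain ⟨M, hM⟩ := (hS'.image fun g => C g⁻¹).bddAbove
    exact ⟨M, fun g hg => hM ⟨g, hg, rfl⟩⟩
  obtain ⟨E, δ, hE, hne, hδ, hb⟩ := h (ε / (2 * (M + 1))) (by positivity)
  refine ⟨E⁻¹, hE.inv, hne.inv, fun g hg => ?_⟩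
  have h1 := hC g⁻¹ E hE δ hb
  have hEi : E⁻¹.ncard = E.ncard := by
    rw [← Set.image_inv_eq_inv]
    exact Set.ncard_image_of_injective _ inv_injective
  have h2 : symmDiff ((fun x => g * x) '' E⁻¹) E⁻¹ =
      (((fun x => x * g⁻¹) '' E \ E) ∪ (E \ (fun x => x * g⁻¹) '' E))⁻¹ := by
    ext z
    simp only [Set.mem_symmDiff, Set.mem_image, Set.mem_inv, Set.mem_union, Set.mem_diff]
    have e1 : (∃ x, x⁻¹ ∈ E ∧ g * x = z) ↔ ∃ x ∈ E, x * g⁻¹ = z⁻¹ := by
      constructor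
      · rintro ⟨x, hx, rfl⟩
        exact ⟨x⁻¹, hx, by simp⟩
      · rintro ⟨x, hx, hz⟩
        refine ⟨x⁻¹, by simpa using hx, ?_⟩
        have := congrArg (·⁻¹) hz
        simpa using this
    rw [e1]
  have h3 : (symmDiff ((fun x => g * x) '' E⁻¹) E⁻¹).ncard ≤
      (((fun x => x * g⁻¹) '' E) \ E).ncard + (((fun x => x * g⁻¹) '' E) \ E).ncard := by
    rw [h2]
    have : ((((fun x => x * g⁻¹) '' E \ E) ∪ (E \ (fun x => x * g⁻¹) '' E))⁻¹).ncard =
        (((fun x => x * g⁻¹) '' E \ E) ∪ (E \ (fun x => x * g⁻¹) '' E)).ncard := by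
      rw [← Set.image_inv_eq_inv]
      exact Set.ncard_image_of_injective _ inv_injective
    rw [this]
    refine (Set.ncard_union_le _ _).trans ?_
    rw [diff_comm_card hE (hE.image _) (ncard_right E g⁻¹).symm]
  rw [hEi]
  have hpos : 0 < E.ncard := (Set.ncard_pos hE).2 hne
  have h4 : ((symmDiff ((fun x => g * x) '' E⁻¹) E⁻¹).ncard : ℝ) ≤ 2 * (M * δ) := by
    have h5 : C g⁻¹ * δ ≤ M * δ := Nat.mul_le_mul_right _ (hM g hg)
    have h6 : (symmDiff ((fun x => g * x) '' E⁻¹) E⁻¹).ncard ≤ 2 * (M * δ) := by omega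
    exact_mod_cast h6
  refine h4.trans ?_
  calc 2 * ((M : ℝ) * δ) ≤ 2 * ((M + 1) * (ε / (2 * (M + 1)) * E.ncard)) := by
        gcongr
        linarith
    _ = ε * E.ncard := by field_simp

end General

/-- the Følner sets -/
def Es (k : ℕ) : Set (Equiv.Perm (List X)) :=
  (fun p : Equiv.Perm (List X) × V => p.1 * T p.2) '' ((K k : Set (Equiv.Perm (List X))) ×ˢ Lam k)

theorem Lam_eq (k : ℕ) : Lam k =
    ↑(Fintype.piFinset fun _ : Fin 3 => Finset.Ico (-2 ^ k : ℤ) (2 ^ k)) := by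
  ext v
  simp [Lam]

theorem Lam_finite (k : ℕ) : (Lam k).Finite := by
  rw [Lam_eq]; exact Finset.finite_toSet _

theorem card_Ico (k : ℕ) : (Finset.Ico (-2 ^ k : ℤ) (2 ^ k)).card = 2 ^ (k + 1) := by
  rw [Int.card_Ico, pow_succ]
  have : (2 ^ k : ℤ) - -2 ^ k = ((2 ^ k * 2 : ℕ) : ℤ) := by push_cast; ring
  rw [this, Int.toNat_natCast]

theorem Lam_ncard (k : ℕ) : (Lam k).ncard = (2 ^ (k + 1)) ^ 3 := by
  rw [Lam_eq, Set.ncard_coe_finset, Fintype.card_piFinset]
  simp only [card_Ico, Finset.prod_const, Finset.card_univ, Fintype.card_fin]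

/-- the outer face of the box in direction `i` -/
def Bad (k : ℕ) (i : Fin 3) : Set V :=
  ↑(Fintype.piFinset fun j : Fin 3 => if j = i then {(2 ^ k : ℤ)} else Finset.Ico (-2 ^ k : ℤ) (2 ^ k))

theorem Bad_ncard (k : ℕ) (i : Fin 3) : (Bad k i).ncard = (2 ^ (k + 1)) ^ 2 := by
  rw [Bad, Set.ncard_coe_finset, Fintype.card_piFinset, Fin.prod_univ_three]
  fin_cases i <;> simp [-Int.card_Ico, card_Ico] <;> ring

theorem mem_Bad {k : ℕ} {i : Fin 3} {v : V} (hv : v ∈ Lam k) (h : v + ee i ∉ Lam k) :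
    v + ee i ∈ Bad k i := by
  have hj : ∀ j, j ≠ i → (v + ee i) j = v j := fun j hj => by
    simp [ee, Pi.single_eq_of_ne hj]
  have hi : (v + ee i) i = v i + 1 := by simp [ee]
  rw [Bad, Finset.mem_coe, Fintype.mem_piFinset]
  intro j
  by_cases hji : j = i
  · subst hji
    rw [if_pos rfl, Finset.mem_singleton]
    by_contra hcon
    apply h
    intro l
    by_cases hl : l = j
    · subst hl
      have := hv l
      rw [hi] at hcon ⊢
      omega
    · rw [hj l hl]
      exact hv l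
  · rw [if_neg hji, Finset.mem_Ico, hj j hji]
    exact hv j

theorem psi_injOn (k : ℕ) (s : Set V) : Set.InjOn
    (fun p : Equiv.Perm (List X) × V => p.1 * T p.2)
    ((K k : Set (Equiv.Perm (List X))) ×ˢ s) := by
  rintro ⟨a, u⟩ ⟨ha, _⟩ ⟨b, v⟩ ⟨hb, _⟩ h
  simp only at h ha hb
  have huv : u = v := by
    apply eq_of_dg
    intro w
    have h1 : (a * T u) w = (b * T v) w := by rw [h]
    have h2 := congrArg dg h1
    rw [Equiv.Perm.mul_apply, Equiv.Perm.mul_apply, dg_K ha, dg_K hb] at h2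
    exact h2
  subst huv
  rw [mul_right_cancel h]

theorem Es_finite (k : ℕ) : (Es k).Finite := ((K_finite k).prod (Lam_finite k)).image _

theorem Es_ncard (k : ℕ) :
    (Es k).ncard = (K k : Set (Equiv.Perm (List X))).ncard * (2 ^ (k + 1)) ^ 3 := by
  rw [Es, Set.InjOn.ncard_image (psi_injOn k _), Set.ncard_prod, Lam_ncard]

theorem Es_bound (k : ℕ) {s : Equiv.Perm (List X)} (hs : s ∈ gens) :
    (((fun x => x * s) '' Es k) \ Es k).ncard ≤
      (K k : Set (Equiv.Perm (List X))).ncard * (2 ^ (k + 1)) ^ 2 := by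
  have h0 : (∀ v ∈ Lam k, ∃ κ ∈ K k, T v * s = κ * T v) →
      (((fun x => x * s) '' Es k) \ Es k).ncard ≤
      (K k : Set (Equiv.Perm (List X))).ncard * (2 ^ (k + 1)) ^ 2 := by
    intro h
    have : ((fun x => x * s) '' Es k) \ Es k = ∅ := by
      rw [Set.diff_eq_empty]
      rintro _ ⟨_, ⟨⟨a, v⟩, ⟨ha, hv⟩, rfl⟩, rfl⟩
      obtain ⟨κ, hκ, h1⟩ := h v hv
      exact ⟨(a * κ, v), ⟨(K k).mul_mem ha hκ, hv⟩, by simp only [mul_assoc, h1]⟩
    rw [this, Set.ncard_empty]
    exact Nat.zero_le _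
  rcases hs with (rfl | h) | ⟨i, rfl⟩
  · apply h0
    intro v hv
    exact ⟨F v, F_mem_K hv, by rw [T_mul_F, add_zero]⟩
  · rw [show s = D 0 from h] at h0 ⊢
    apply h0
    intro v hv
    exact ⟨D v, D_mem_K hv, by rw [T_mul_D, add_zero]⟩
  · have h1 : ((fun x => x * T (ee i)) '' Es k) \ Es k ⊆
        (fun p : Equiv.Perm (List X) × V => p.1 * T p.2) ''
          ((K k : Set (Equiv.Perm (List X))) ×ˢ Bad k i) := by
      rintro _ ⟨⟨_, ⟨⟨a, v⟩, ⟨ha, hv⟩, rfl⟩, rfl⟩, h2⟩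
      have e : (a * T v) * T (ee i) = a * T (v + ee i) := by rw [T_add, mul_assoc]
      refine ⟨(a, v + ee i), ⟨ha, mem_Bad hv fun h3 => h2 ?_⟩, e.symm⟩
      exact ⟨(a, v + ee i), ⟨ha, h3⟩, e.symm⟩
    have hfin : ((K k : Set (Equiv.Perm (List X))) ×ˢ Bad k i).Finite :=
      (K_finite k).prod (Finset.finite_toSet _)
    calc (((fun x => x * T (ee i)) '' Es k) \ Es k).ncard
        ≤ _ := Set.ncard_le_ncard h1 (hfin.image _)
      _ ≤ _ := Set.ncard_image_le hfin
      _ = _ := by rw [Set.ncard_prod, Bad_ncard]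

theorem Es_sub (k : ℕ) : Es k ⊆ (G : Set (Equiv.Perm (List X))) := by
  rintro _ ⟨⟨a, v⟩, ⟨ha, _⟩, rfl⟩
  exact G.mul_mem (K_le_G k ha) (T_mem v)

/-- the generators, as elements of the group -/
def gensG : Set G := {g | (g : Equiv.Perm (List X)) ∈ gens}

theorem closure_gensG : Subgroup.closure gensG = ⊤ := by
  rw [eq_top_iff]
  intro g _
  have h1 : (Subgroup.closure gensG).map G.subtype = G := by
    rw [MonoidHom.map_closure]
    have : G.subtype '' gensG = gens := by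
      ext x
      constructor
      · rintro ⟨g, hg, rfl⟩; exact hg
      · intro hx; exact ⟨⟨x, Subgroup.subset_closure hx⟩, hx, rfl⟩
    rw [this]; rfl
  have h2 : (g : Equiv.Perm (List X)) ∈ (Subgroup.closure gensG).map G.subtype := by
    rw [h1]; exact g.2
  obtain ⟨g', hg', h3⟩ := h2
  have : g' = g := Subtype.ext h3
  rwa [← this]

theorem gensG_finite : gensG.Finite := by
  have : gens.Finite := by
    unfold gens
    exact (Set.toFinite _).union (Set.finite_range _)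
  exact this.preimage Subtype.val_injective.injOn

theorem G_fg : G.FG := by
  refine (Subgroup.fg_iff _).2 ⟨gens, rfl, ?_⟩
  unfold gens
  exact (Set.toFinite _).union (Set.finite_range _)

/-- **The group is amenable.** -/
theorem G_amenable : Amenable G := by
  refine amenable_of_right gensG closure_gensG fun ε hε => ?_
  obtain ⟨k, hk⟩ : ∃ k : ℕ, 1 / ε < (2 : ℝ) ^ k := pow_unbounded_of_one_lt _ (by norm_num)
  have himg : ∀ A : Set (Equiv.Perm (List X)), A ⊆ G →
      ((fun g : G => (g : Equiv.Perm (List X))) ⁻¹' A).ncard = A.ncard := by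
    intro A hA
    rw [← Set.ncard_image_of_injective _ (Subtype.val_injective (p := fun g => g ∈ G)),
      Set.image_preimage_eq_of_subset]
    intro a ha
    exact ⟨⟨a, hA ha⟩, rfl⟩
  have hcard := Es_ncard k
  have hKpos : 0 < (K k : Set (Equiv.Perm (List X))).ncard :=
    (Set.ncard_pos (K_finite k)).2 ⟨1, (K k).one_mem⟩
  refine ⟨(fun g : G => (g : Equiv.Perm (List X))) ⁻¹' Es k,
    (K k : Set (Equiv.Perm (List X))).ncard * (2 ^ (k + 1)) ^ 2, ?_, ?_, ?_, ?_⟩
  · exact (Es_finite k).preimage Subtype.val_injective.injOn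
  · refine ⟨1, ⟨(1, 0), ⟨(K k).one_mem, ?_⟩, ?_⟩⟩
    · intro i
      simp
    · simp [T_zero]
  · rw [himg _ (Es_sub k), hcard]
    push_cast
    have h1 : 1 ≤ ε * 2 ^ (k + 1) := by
      rw [div_lt_iff₀ hε] at hk
      have : (2 : ℝ) ^ k ≤ 2 ^ (k + 1) := pow_le_pow_right₀ (by norm_num) (Nat.le_succ k)
      nlinarith
    have hK' : (0 : ℝ) < (K k : Set (Equiv.Perm (List X))).ncard := by exact_mod_cast hKpos
    have h2 : (0 : ℝ) < (2 ^ (k + 1)) ^ 2 := by positivity
    calc ((K k : Set (Equiv.Perm (List X))).ncard : ℝ) * (2 ^ (k + 1)) ^ 2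
        = ((K k : Set (Equiv.Perm (List X))).ncard : ℝ) * (2 ^ (k + 1)) ^ 2 * 1 := by ring
      _ ≤ ((K k : Set (Equiv.Perm (List X))).ncard : ℝ) * (2 ^ (k + 1)) ^ 2 *
          (ε * 2 ^ (k + 1)) := by gcongr
      _ = _ := by ring
  · intro s hs
    refine le_trans (le_of_eq ?_) (Es_bound k hs)
    rw [← himg]
    · congr 1
      ext g
      simp only [Set.mem_diff, Set.mem_image, Set.mem_preimage]
      constructor
      · rintro ⟨⟨x, hx, rfl⟩, h2⟩
        exact ⟨⟨x, hx, rfl⟩, h2⟩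
      · rintro ⟨⟨x, hx, h3⟩, h2⟩
        exact ⟨⟨⟨x, Es_sub k hx⟩, hx, Subtype.ext h3⟩, h2⟩
    · rintro _ ⟨⟨x, hx, rfl⟩, -⟩
      exact G.mul_mem (Es_sub k hx) s.2

end Pool.Agent.W380.WB
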