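import Pool.Agent.W380.WB.Act

/-! # The group is weakly branch -/

set_option autoImplicit false

namespace Pool.Agent.W380.WB

theorem perm_apply_inv {A : Type} (g : Equiv.Perm A) (x : A) : g (g⁻¹ x) = x :=
  g.apply_symm_apply x

theorem perm_inv_apply {A : Type} (g : Equiv.Perm A) (x : A) : g⁻¹ (g x) = x :=
  g.symm_apply_apply x

/-- `g` is an automorphism of the rooted tree of finite words: it preserves the length of words
and the relation of being an initial segment. -/
def IsTreeAut {A : Type} (g : Equiv.Perm (List A)) : Prop :=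
  (∀ w, (g w).length = w.length) ∧ ∀ v w, v <+: w → g v <+: g w

theorem IsTreeAut.one {A : Type} : IsTreeAut (1 : Equiv.Perm (List A)) :=
  ⟨fun _ => rfl, fun _ _ h => h⟩

theorem IsTreeAut.mul {A : Type} {g h : Equiv.Perm (List A)} (hg : IsTreeAut g)
    (hh : IsTreeAut h) : IsTreeAut (g * h) :=
  ⟨fun w => by rw [Equiv.Perm.mul_apply, hg.1, hh.1], fun _ _ hvw => hg.2 _ _ (hh.2 _ _ hvw)⟩

theorem IsTreeAut.inv {A : Type} {g : Equiv.Perm (List A)} (hg : IsTreeAut g) :
    IsTreeAut g⁻¹ := by
  have h1 : ∀ w, (g⁻¹ w).length = w.length := fun w => by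
    conv_rhs => rw [← perm_apply_inv g w]
    rw [hg.1]
  refine ⟨h1, fun v w hvw => ?_⟩
  have h2 : g ((g⁻¹ w).take v.length) <+: w := by
    have := hg.2 _ _ (List.take_prefix v.length (g⁻¹ w))
    rwa [perm_apply_inv] at this
  have h3 : (g ((g⁻¹ w).take v.length)).length = v.length := by
    rw [hg.1, List.length_take, h1, min_eq_left hvw.length_le]
  have h4 : g ((g⁻¹ w).take v.length) = v :=
    List.IsPrefix.eq_of_length (List.prefix_of_prefix_length_le h2 hvw h3.le) h3
  have h5 : g⁻¹ v = (g⁻¹ w).take v.length := by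
    rw [← h4, perm_inv_apply, h4]
  rw [h5]
  exact List.take_prefix _ _

theorem IsTreeAut.prefix_iff {A : Type} {g : Equiv.Perm (List A)} (hg : IsTreeAut g)
    (v w : List A) : g v <+: g w ↔ v <+: w := by
  refine ⟨fun h => ?_, hg.2 v w⟩
  have := hg.inv.2 _ _ h
  rwa [perm_inv_apply, perm_inv_apply] at this

theorem length_Tf (v : V) (w : List X) : (Tf v w).length = w.length := by
  induction w generalizing v with
  | nil => rfl
  | cons l w ih =>
    obtain ⟨x, c, d⟩ := l
    simp only [Tf, List.length_cons, ih]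

theorem prefix_Tf (u : V) {v w : List X} (h : v <+: w) : Tf u v <+: Tf u w := by
  induction v generalizing u w with
  | nil => exact List.nil_prefix
  | cons l v ih =>
    obtain ⟨t, rfl⟩ := h
    obtain ⟨x, c, d⟩ := l
    simp only [Tf, List.cons_append, List.prefix_cons_inj]
    exact ih _ (List.prefix_append _ _)

theorem length_Ff (v : V) (w : List X) : (Ff v w).length = w.length := by
  induction w generalizing v with
  | nil => rfl
  | cons l w ih =>
    obtain ⟨x, c, d⟩ := l
    simp only [Ff]
    split_ifs <;> simp [ih]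

theorem prefix_Ff (u : V) {v w : List X} (h : v <+: w) : Ff u v <+: Ff u w := by
  induction v generalizing u w with
  | nil => exact List.nil_prefix
  | cons l v ih =>
    obtain ⟨t, rfl⟩ := h
    obtain ⟨x, c, d⟩ := l
    simp only [Ff, List.cons_append]
    split_ifs <;> simp only [List.prefix_cons_inj] <;>
      first | exact ih _ (List.prefix_append _ _) | exact List.prefix_append _ _

theorem length_Df (v : V) (w : List X) : (Df v w).length = w.length := by
  induction w generalizing v with
  | nil => rfl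
  | cons l w ih =>
    obtain ⟨x, c, d⟩ := l
    simp only [Df]
    split_ifs <;> simp [ih]

theorem prefix_Df (u : V) {v w : List X} (h : v <+: w) : Df u v <+: Df u w := by
  induction v generalizing u w with
  | nil => exact List.nil_prefix
  | cons l v ih =>
    obtain ⟨t, rfl⟩ := h
    obtain ⟨x, c, d⟩ := l
    simp only [Df, List.cons_append]
    split_ifs <;> simp only [List.prefix_cons_inj] <;>
      first | exact ih _ (List.prefix_append _ _) | exact List.prefix_append _ _

theorem isTreeAut_of_mem {g : Equiv.Perm (List X)} (hg : g ∈ G) : IsTreeAut g := by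
  induction hg using Subgroup.closure_induction with
  | mem g hg =>
    rcases hg with (h | h) | ⟨i, rfl⟩
    · rw [show g = F 0 from h]
      exact ⟨length_Ff 0, fun v w => prefix_Ff 0⟩
    · rw [show g = D 0 from h]
      exact ⟨length_Df 0, fun v w => prefix_Df 0⟩
    · exact ⟨length_Tf _, fun v w => prefix_Tf _⟩
  | one => exact IsTreeAut.one
  | mul x y _ _ hx hy => exact hx.mul hy
  | inv x _ hx => exact hx.inv

/-- the base letter -/
def zl : X := (par 0, false, false)

theorem half_zero : half 0 = 0 := by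
  funext i; simp [half]

theorem Ff_zl (v : V) (hv : par v = par 0) (w : List X) :
    Ff v (zl :: w) = zl :: Ff (half v) w := by
  simp only [zl, Ff, if_pos hv.symm]
  simp

theorem Df_zl (v : V) (hv : par v = par 0) (w : List X) :
    Df v (zl :: w) = zl :: Df (half v) w := by
  change Df v ((par 0, false, false) :: w) = (par 0, false, false) :: Df (half v) w
  rw [Df, if_pos hv.symm]

theorem par_two_smul_add (v u : V) : par ((2 : ℤ) • v + u) = par u := by
  rw [par_eq_par_iff]
  intro i
  simp only [Pi.add_apply, Pi.smul_apply, smul_eq_mul]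
  omega

theorem half_two_smul_add_io (v : V) (x : Dg) : half ((2 : ℤ) • v + io x) = v := by
  funext i
  simp only [half, Pi.add_apply, Pi.smul_apply, smul_eq_mul, io]
  cases x i <;> simp
  omega

theorem Tf_two (v : V) (x : Dg) (c d : Bool) (w : List X) :
    Tf ((2 : ℤ) • v) ((x, c, d) :: w) = (x, c, d) :: Tf v w := by
  simp only [Tf]
  rw [par_two_smul_add, par_io, half_two_smul_add_io]

/-- The group is self-replicating at the base letter. -/
theorem exists_lift {g : Equiv.Perm (List X)} (hg : g ∈ G) :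
    ∃ g' ∈ G, ∀ w, g' (zl :: w) = zl :: g w := by
  induction hg using Subgroup.closure_induction with
  | mem g hg =>
    rcases hg with (h | h) | ⟨i, rfl⟩
    · rw [show g = F 0 from h]
      refine ⟨F 0, F_mem 0, fun w => ?_⟩
      rw [F_apply, F_apply, Ff_zl 0 rfl, half_zero]
    · rw [show g = D 0 from h]
      refine ⟨D 0, D_mem 0, fun w => ?_⟩
      rw [D_apply, D_apply, Df_zl 0 rfl, half_zero]
    · exact ⟨T ((2 : ℤ) • ee i), T_mem _, fun w => Tf_two _ _ _ _ w⟩
  | one => exact ⟨1, G.one_mem, fun w => rfl⟩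
  | mul x y _ _ hx hy =>
    obtain ⟨x', h1, h2⟩ := hx
    obtain ⟨y', h3, h4⟩ := hy
    exact ⟨x' * y', G.mul_mem h1 h3, fun w => by
      rw [Equiv.Perm.mul_apply, h4, h2, Equiv.Perm.mul_apply]⟩
  | inv x _ hx =>
    obtain ⟨x', h1, h2⟩ := hx
    refine ⟨x'⁻¹, G.inv_mem h1, fun w => ?_⟩
    rw [Equiv.Perm.inv_eq_iff_eq, h2, perm_apply_inv]

theorem par_e1e1 : par 0 = par (e1 + e1) := by
  rw [par_eq_par_iff]
  intro i
  simp only [Pi.add_apply, Pi.zero_apply]
  omega

theorem par_zero_ne_e1 : par 0 ≠ par e1 := by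
  have := par_ne 0
  rwa [zero_add] at this

theorem exists_to_base (w : List X) : ∃ g ∈ G, g w = List.replicate w.length zl := by
  induction w with
  | nil => exact ⟨1, G.one_mem, rfl⟩
  | cons l w ih =>
    obtain ⟨x, c, d⟩ := l
    obtain ⟨g, hg, hgw⟩ := ih
    obtain ⟨g', hg', h1⟩ := exists_lift hg
    have s1 : T (-io x) ((x, c, d) :: w) = (par 0, c, d) :: w := by
      rw [T_apply, Tf, neg_add_cancel, half_zero, Tf_zero]
    have s2 : ∃ h ∈ G, h ((par 0, c, d) :: w) = (par 0, false, d) :: w := by
      cases c with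
      | false => exact ⟨1, G.one_mem, rfl⟩
      | true =>
        refine ⟨F e1, F_mem _, ?_⟩
        rw [F_apply, Ff, if_neg par_zero_ne_e1, if_pos par_e1e1]
        rfl
    have s3 : ∃ h ∈ G, h ((par 0, false, d) :: w) = (par 0, false, false) :: w := by
      cases d with
      | false => exact ⟨1, G.one_mem, rfl⟩
      | true =>
        refine ⟨D e1, D_mem _, ?_⟩
        rw [D_apply, Df, if_neg par_zero_ne_e1, if_pos par_e1e1]
        rfl
    obtain ⟨a, ha, ha'⟩ := s2
    obtain ⟨b, hb, hb'⟩ := s3
    refine ⟨g' * b * a * T (-io x), G.mul_mem (G.mul_mem (G.mul_mem hg' hb) ha) (T_mem _), ?_⟩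
    rw [Equiv.Perm.mul_apply, Equiv.Perm.mul_apply, Equiv.Perm.mul_apply, s1, ha', hb']
    have := h1 w
    rw [hgw] at this
    exact this

theorem level_transitive (v w : List X) (h : v.length = w.length) : ∃ g ∈ G, g v = w := by
  obtain ⟨a, ha, ha'⟩ := exists_to_base v
  obtain ⟨b, hb, hb'⟩ := exists_to_base w
  refine ⟨b⁻¹ * a, G.mul_mem (G.inv_mem hb) ha, ?_⟩
  rw [Equiv.Perm.mul_apply, ha', Equiv.Perm.inv_eq_iff_eq, hb', h]

/-- elements of rigid stabilisers -/
def R (n : ℕ) : Equiv.Perm (List X) := F 0 * F ((2 : ℤ) ^ n • ee 1)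

theorem R_mem (n : ℕ) : R n ∈ G := G.mul_mem (F_mem _) (F_mem _)

theorem R_zl (n : ℕ) (w : List X) : R (n + 1) (zl :: w) = zl :: R n w := by
  have h1 : par ((2 : ℤ) ^ (n + 1) • ee 1) = par 0 := by
    rw [pow_succ', mul_smul]
    have := par_two_smul_add ((2 : ℤ) ^ n • ee 1) 0
    rwa [add_zero] at this
  have h2 : half ((2 : ℤ) ^ (n + 1) • ee 1) = (2 : ℤ) ^ n • ee 1 := by
    rw [pow_succ', mul_smul]
    have := half_two_smul_add_io ((2 : ℤ) ^ n • ee 1) (par 0)
    have h0 : io (par 0) = 0 := by
      funext i; rw [io_par]; simp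
    rwa [h0, add_zero] at this
  unfold R
  rw [Equiv.Perm.mul_apply, Equiv.Perm.mul_apply, F_apply, F_apply, F_apply, F_apply,
    Ff_zl _ h1, Ff_zl 0 rfl, h2, half_zero]

theorem R_other (n : ℕ) (l : X) (hl : l ≠ zl) (w : List X) : R (n + 1) (l :: w) = l :: w := by
  have h1 : par ((2 : ℤ) ^ (n + 1) • ee 1) = par 0 := by
    rw [pow_succ', mul_smul]
    have := par_two_smul_add ((2 : ℤ) ^ n • ee 1) 0
    rwa [add_zero] at this
  have h2 : par ((2 : ℤ) ^ (n + 1) • ee 1 + e1) = par e1 := by
    rw [pow_succ', mul_smul]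
    exact par_two_smul_add ((2 : ℤ) ^ n • ee 1) e1
  obtain ⟨x, c, d⟩ := l
  unfold R
  rw [Equiv.Perm.mul_apply, F_apply, F_apply]
  by_cases hx : x = par 0
  · have hcd : ¬ (c = false ∧ d = false) := by
      rintro ⟨rfl, rfl⟩
      exact hl (by rw [hx]; rfl)
    have e1' : ∀ v : V, par v = par 0 → Ff v ((x, c, d) :: w) = (x, c, d) :: w := by
      intro v hv
      rw [Ff, if_pos (hx.trans hv.symm), if_neg hcd]
    rw [e1' _ h1, e1' _ rfl]
  · by_cases hx' : x = par e1
    · have e1' : ∀ (v : V) (c : Bool), par v = par 0 → par (v + e1) = par e1 →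
          Ff v ((x, c, d) :: w) = (x, !c, d) :: w := by
        intro v c hv hv'
        rw [Ff, if_neg (fun h => hx (h.trans hv)), if_pos (hx'.trans hv'.symm)]
      rw [e1' _ _ h1 h2, e1' 0 _ rfl (by rw [zero_add]), Bool.not_not]
    · have e1' : ∀ v : V, par v = par 0 → par (v + e1) = par e1 →
          Ff v ((x, c, d) :: w) = (x, c, d) :: w := by
        intro v hv hv'
        rw [Ff, if_neg (fun h => hx (h.trans hv)), if_neg (fun h => hx' (h.trans hv'))]
      rw [e1' _ h1 h2, e1' 0 rfl (by rw [zero_add])]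

theorem R_zero_nil : R 0 [] = [] := rfl

theorem R_support (n : ℕ) (w : List X) (h : ¬ List.replicate n zl <+: w) : R n w = w := by
  induction n generalizing w with
  | zero => exact absurd List.nil_prefix h
  | succ n ih =>
    cases w with
    | nil => rfl
    | cons l w =>
      by_cases hl : l = zl
      · subst hl
        rw [R_zl, ih]
        intro h'
        apply h
        rw [List.replicate_succ, List.prefix_cons_inj]
        exact h'
      · exact R_other n l hl w

theorem R_ne_one (n : ℕ) : R n ≠ 1 := by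
  have key : ∀ n, ∃ w, R n w ≠ w := by
    intro n
    induction n with
    | zero =>
      refine ⟨[(par e1, false, false)], ?_⟩
      have a1 : par e1 ≠ par (((2 : ℤ) ^ 0 • ee 1 : V)) := by
        intro h
        have := par_eq_par_iff.1 h 0
        simp [e1, ee] at this
      have a2 : par e1 ≠ par (((2 : ℤ) ^ 0 • ee 1 : V) + e1) := by
        intro h
        have := par_eq_par_iff.1 h 1
        simp [e1, ee] at this
      have a3 : par e1 = par (0 + e1) := by rw [zero_add]
      unfold R
      rw [Equiv.Perm.mul_apply, F_apply, F_apply, Ff, if_neg a1, if_neg a2, Ff,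
        if_neg par_zero_ne_e1.symm, if_pos a3]
      simp
    | succ n ih =>
      obtain ⟨w, hw⟩ := ih
      refine ⟨zl :: w, ?_⟩
      rw [R_zl]
      intro h
      exact hw (List.cons.inj h).2
  obtain ⟨w, hw⟩ := key n
  intro h
  rw [h] at hw
  exact hw rfl

/-- All rigid stabilisers are nontrivial. -/
theorem rist_nontrivial (v : List X) : ∃ g ∈ G, g ≠ 1 ∧ ∀ w, ¬ v <+: w → g w = w := by
  obtain ⟨a, ha, ha'⟩ := exists_to_base v
  refine ⟨a⁻¹ * R v.length * a, G.mul_mem (G.mul_mem (G.inv_mem ha) (R_mem _)) ha, ?_, ?_⟩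
  · intro h
    apply R_ne_one v.length
    rw [mul_assoc, inv_mul_eq_one] at h
    have h2 : R v.length * a = 1 * a := by rw [← h, one_mul]
    exact mul_right_cancel h2
  · intro w hw
    rw [Equiv.Perm.mul_apply, Equiv.Perm.mul_apply, R_support, perm_inv_apply]
    rw [← ha', (isTreeAut_of_mem ha).prefix_iff]
    exact hw

end Pool.Agent.W380.WB
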