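import Pool.Agent.W380.WB.Branch

/-! # Finitely many lamps generate a finite group -/

set_option autoImplicit false

namespace Pool.Agent.W380.WB

/-- `g` preserves the digits of the first letter and its sections at letters with digits `x` lie
in `M x`. -/
def SecIn (M : Dg → Subgroup (Equiv.Perm (List X))) (g : Equiv.Perm (List X)) : Prop :=
  g [] = [] ∧ ∀ x c d, ∃ c' d', ∃ s ∈ M x, ∀ w, g ((x, c, d) :: w) = (x, c', d') :: s w

theorem SecIn.mul {M : Dg → Subgroup (Equiv.Perm (List X))} {g h : Equiv.Perm (List X)}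
    (hg : SecIn M g) (hh : SecIn M h) : SecIn M (g * h) := by
  refine ⟨by rw [Equiv.Perm.mul_apply, hh.1, hg.1], fun x c d => ?_⟩
  obtain ⟨c', d', s, hs, h1⟩ := hh.2 x c d
  obtain ⟨c'', d'', s', hs', h2⟩ := hg.2 x c' d'
  exact ⟨c'', d'', s' * s, (M x).mul_mem hs' hs, fun w => by
    rw [Equiv.Perm.mul_apply, h1, h2, Equiv.Perm.mul_apply]⟩

theorem SecIn.one (M : Dg → Subgroup (Equiv.Perm (List X))) : SecIn M 1 :=
  ⟨rfl, fun x c d => ⟨c, d, 1, (M x).one_mem, fun _ => rfl⟩⟩

theorem secIn_closure {M : Dg → Subgroup (Equiv.Perm (List X))}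
    {S : Set (Equiv.Perm (List X))} (hS : ∀ g ∈ S, SecIn M g ∧ g⁻¹ = g)
    {g : Equiv.Perm (List X)} (hg : g ∈ Subgroup.closure S) : SecIn M g := by
  induction hg using Subgroup.closure_induction_left with
  | one => exact SecIn.one M
  | mul_left x hx y _ ih => exact (hS x hx).1.mul ih
  | inv_mul_cancel x hx y _ ih =>
    rw [(hS x hx).2]
    exact (hS x hx).1.mul ih

theorem finite_of_secIn {M : Dg → Subgroup (Equiv.Perm (List X))}
    (hM : ∀ x, (M x : Set (Equiv.Perm (List X))).Finite)
    (H : Subgroup (Equiv.Perm (List X))) (hH : ∀ g ∈ H, SecIn M g) :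
    (H : Set (Equiv.Perm (List X))).Finite := by
  classical
  have hfin : ∀ x, Finite (M x) := fun x => (hM x).to_subtype
  let Y := (l : X) → (X × M l.1)
  have hY : Finite Y := inferInstance
  have h1 : ∀ g : H, ∃ y : Y, ∀ l : X, ∀ w, (g : Equiv.Perm (List X)) (l :: w) =
      (y l).1 :: ((y l).2 : Equiv.Perm (List X)) w := by
    intro g
    have h2 : ∀ l : X, ∃ p : X × M l.1, ∀ w, (g : Equiv.Perm (List X)) (l :: w) =
        p.1 :: (p.2 : Equiv.Perm (List X)) w := by
      rintro ⟨x, c, d⟩
      obtain ⟨c', d', s, hs, h3⟩ := (hH g g.2).2 x c d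
      exact ⟨⟨(x, c', d'), ⟨s, hs⟩⟩, h3⟩
    choose p hp using h2
    exact ⟨p, hp⟩
  choose Φ hΦ using h1
  have hinj : Function.Injective Φ := by
    intro g h hgh
    apply Subtype.ext
    ext1 w
    cases w with
    | nil => rw [(hH g g.2).1, (hH h h.2).1]
    | cons l w => rw [hΦ g, hΦ h, hgh]
  have : Finite H := Finite.of_injective Φ hinj
  exact Set.toFinite _

theorem F_mul_D (v : V) : F v * D v = D v * F v := by
  have key : ∀ (w : List X) (v : V), Ff v (Df v w) = Df v (Ff v w) := by
    intro w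
    induction w with
    | nil => intro v; rfl
    | cons l w ih =>
      intro v
      obtain ⟨x, c, d⟩ := l
      by_cases h1 : x = par v
      · by_cases h2 : c = false ∧ d = false
        · simp only [Ff, Df, if_pos h1, if_pos h2, ih]
        · simp only [Ff, Df, if_pos h1, if_neg h2]
      · by_cases h3 : x = par (v + e1)
        · simp only [Ff, Df, if_neg h1, if_pos h3]
        · simp only [Ff, Df, if_neg h1, if_neg h3]
  ext1 w
  exact key w v

/-- the group generated by `F v` and `D v`, as a set -/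
def B (v : V) : Subgroup (Equiv.Perm (List X)) := Subgroup.closure {F v, D v}

theorem B_finite (v : V) : (B v : Set (Equiv.Perm (List X))).Finite := by
  refine Set.Finite.subset (Set.toFinite {1, F v, D v, F v * D v}) ?_
  intro g hg
  induction hg using Subgroup.closure_induction_left with
  | one => simp
  | mul_left x hx y _ ih =>
    simp only [Set.mem_insert_iff, Set.mem_singleton_iff] at hx ih ⊢
    rcases hx with rfl | rfl <;> rcases ih with rfl | rfl | rfl | rfl
    · simp
    · simp [F_sq]
    · simp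
    · simp [← mul_assoc, F_sq]
    · simp
    · simp [F_mul_D]
    · simp [D_sq]
    · right; left
      rw [F_mul_D, ← mul_assoc, D_sq, one_mul]
  | inv_mul_cancel x hx y _ ih =>
    have hx' : x⁻¹ = x := by
      simp only [Set.mem_insert_iff, Set.mem_singleton_iff] at hx
      rcases hx with rfl | rfl
      · exact F_inv v
      · exact D_inv v
    rw [hx']
    simp only [Set.mem_insert_iff, Set.mem_singleton_iff] at hx ih ⊢
    rcases hx with rfl | rfl <;> rcases ih with rfl | rfl | rfl | rfl
    · simp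
    · simp [F_sq]
    · simp
    · simp [← mul_assoc, F_sq]
    · simp
    · simp [F_mul_D]
    · simp [D_sq]
    · right; left
      rw [F_mul_D, ← mul_assoc, D_sq, one_mul]

theorem secIn_F (M : Dg → Subgroup (Equiv.Perm (List X))) (v : V) (h : F (half v) ∈ M (par v)) :
    SecIn M (F v) := by
  refine ⟨rfl, fun x c d => ?_⟩
  by_cases h1 : x = par v
  · subst h1
    by_cases h2 : c = false ∧ d = false
    · exact ⟨c, d, F (half v), h, fun w => by
        rw [F_apply, Ff, if_pos rfl, if_pos h2]; rfl⟩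
    · exact ⟨c, d, 1, (M _).one_mem, fun w => by
        rw [F_apply, Ff, if_pos rfl, if_neg h2]; rfl⟩
  · by_cases h3 : x = par (v + e1)
    · exact ⟨!c, d, 1, (M _).one_mem, fun w => by
        rw [F_apply, Ff, if_neg h1, if_pos h3]; rfl⟩
    · exact ⟨c, d, 1, (M _).one_mem, fun w => by
        rw [F_apply, Ff, if_neg h1, if_neg h3]; rfl⟩

theorem secIn_D (M : Dg → Subgroup (Equiv.Perm (List X))) (v : V) (h : D (half v) ∈ M (par v)) :
    SecIn M (D v) := by
  refine ⟨rfl, fun x c d => ?_⟩
  by_cases h1 : x = par v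
  · subst h1
    exact ⟨c, d, D (half v), h, fun w => by rw [D_apply, Df, if_pos rfl]; rfl⟩
  · by_cases h3 : x = par (v + e1)
    · exact ⟨c, !d, 1, (M _).one_mem, fun w => by
        rw [D_apply, Df, if_neg h1, if_pos h3]; rfl⟩
    · exact ⟨c, d, 1, (M _).one_mem, fun w => by
        rw [D_apply, Df, if_neg h1, if_neg h3]; rfl⟩

/-- the box `[-2^k, 2^k)^3` -/
def Lam (k : ℕ) : Set V := {v | ∀ i, -2 ^ k ≤ v i ∧ v i < 2 ^ k}

/-- the lamps of the box -/
def lamps (k : ℕ) : Set (Equiv.Perm (List X)) := {g | ∃ v ∈ Lam k, g = F v ∨ g = D v}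

/-- the group generated by the lamps of the box -/
def K (k : ℕ) : Subgroup (Equiv.Perm (List X)) := Subgroup.closure (lamps k)

theorem lamps_inv {k : ℕ} {g : Equiv.Perm (List X)} (hg : g ∈ lamps k) : g⁻¹ = g := by
  obtain ⟨v, _, rfl | rfl⟩ := hg
  · exact F_inv v
  · exact D_inv v

theorem F_mem_K {k : ℕ} {v : V} (hv : v ∈ Lam k) : F v ∈ K k :=
  Subgroup.subset_closure ⟨v, hv, Or.inl rfl⟩

theorem D_mem_K {k : ℕ} {v : V} (hv : v ∈ Lam k) : D v ∈ K k :=
  Subgroup.subset_closure ⟨v, hv, Or.inr rfl⟩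

/-- the vector of `{-1,0}^3` with parities `x` -/
def vv (x : Dg) : V := fun i => if x i then -1 else 0

theorem half_of_mem_Lam_zero {v : V} (hv : v ∈ Lam 0) : half v = v := by
  funext i
  have := hv i
  simp only [pow_zero] at this
  simp only [half]
  omega

theorem vv_par {v : V} (hv : v ∈ Lam 0) : vv (par v) = v := by
  funext i
  have := hv i
  simp only [pow_zero] at this
  simp only [vv, par, decide_eq_true_eq]
  split_ifs <;> omega

theorem half_mem_Lam {k : ℕ} {v : V} (hv : v ∈ Lam (k + 1)) : half v ∈ Lam k := by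
  intro i
  have := hv i
  rw [pow_succ] at this
  simp only [half]
  omega

theorem secIn_K_zero {g : Equiv.Perm (List X)} (hg : g ∈ K 0) :
    SecIn (fun x => B (vv x)) g := by
  refine secIn_closure (fun g hg => ⟨?_, lamps_inv hg⟩) hg
  obtain ⟨v, hv, rfl | rfl⟩ := hg
  · apply secIn_F
    rw [half_of_mem_Lam_zero hv, vv_par hv]
    exact Subgroup.subset_closure (Or.inl rfl)
  · apply secIn_D
    rw [half_of_mem_Lam_zero hv, vv_par hv]
    exact Subgroup.subset_closure (Or.inr rfl)

theorem secIn_K_succ {k : ℕ} {g : Equiv.Perm (List X)} (hg : g ∈ K (k + 1)) :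
    SecIn (fun _ => K k) g := by
  refine secIn_closure (fun g hg => ⟨?_, lamps_inv hg⟩) hg
  obtain ⟨v, hv, rfl | rfl⟩ := hg
  · exact secIn_F _ _ (F_mem_K (half_mem_Lam hv))
  · exact secIn_D _ _ (D_mem_K (half_mem_Lam hv))

/-- **Local finiteness.** -/
theorem K_finite (k : ℕ) : (K k : Set (Equiv.Perm (List X))).Finite := by
  induction k with
  | zero => exact finite_of_secIn (fun x => B_finite _) (K 0) fun g hg => secIn_K_zero hg
  | succ k ih => exact finite_of_secIn (fun _ => ih) (K (k + 1)) fun g hg => secIn_K_succ hg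

theorem K_le_G (k : ℕ) : K k ≤ G := by
  rw [K, Subgroup.closure_le]
  rintro g ⟨v, _, rfl | rfl⟩
  · exact F_mem v
  · exact D_mem v

/-! ### digits -/

/-- the digits of a word -/
def dg (w : List X) : List Dg := w.map Prod.fst

theorem dg_cons (l : X) (w : List X) : dg (l :: w) = l.1 :: dg w := rfl

theorem dg_Ff (v : V) (w : List X) : dg (Ff v w) = dg w := by
  induction w generalizing v with
  | nil => rfl
  | cons l w ih =>
    obtain ⟨x, c, d⟩ := l
    simp only [Ff]
    split_ifs <;> simp only [dg_cons, ih]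

theorem dg_Df (v : V) (w : List X) : dg (Df v w) = dg w := by
  induction w generalizing v with
  | nil => rfl
  | cons l w ih =>
    obtain ⟨x, c, d⟩ := l
    simp only [Df]
    split_ifs <;> simp only [dg_cons, ih]

theorem dg_K {k : ℕ} {g : Equiv.Perm (List X)} (hg : g ∈ K k) (w : List X) :
    dg (g w) = dg w := by
  induction hg using Subgroup.closure_induction_left generalizing w with
  | one => rfl
  | mul_left x hx y _ ih =>
    obtain ⟨v, _, rfl | rfl⟩ := hx
    · rw [Equiv.Perm.mul_apply, F_apply, dg_Ff, ih]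
    · rw [Equiv.Perm.mul_apply, D_apply, dg_Df, ih]
  | inv_mul_cancel x hx y _ ih =>
    rw [lamps_inv hx]
    obtain ⟨v, _, rfl | rfl⟩ := hx
    · rw [Equiv.Perm.mul_apply, F_apply, dg_Ff, ih]
    · rw [Equiv.Perm.mul_apply, D_apply, dg_Df, ih]

/-- A vector is determined by its action on the digits. -/
theorem eq_of_dg {u v : V} (h : ∀ w, dg (Tf u w) = dg (Tf v w)) : u = v := by
  have key : ∀ (n : ℕ) (u v : V), (∀ w, dg (Tf u w) = dg (Tf v w)) →
      ∀ i, (2 : ℤ) ^ n ∣ u i - v i := by
    intro n
    induction n with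
    | zero => intro u v _ i; simp
    | succ n ih =>
      intro u v h i
      have h0 : io (par 0) = 0 := by
        funext i; rw [io_par]; simp
      have h1 : ∀ w, par u = par v ∧ dg (Tf (half u) w) = dg (Tf (half v) w) := by
        intro w
        have := h ((par 0, false, false) :: w)
        simp only [Tf, dg_cons, h0, add_zero, List.cons.injEq] at this
        exact this
      obtain ⟨a, ha⟩ := ih (half u) (half v) (fun w => (h1 w).2) i
      have h3 := par_eq_par_iff.1 (h1 []).1 i
      simp only [half] at ha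
      refine ⟨a, ?_⟩
      rw [pow_succ', mul_assoc, ← ha]
      omega
  have hz : ∀ m : ℤ, (∀ n : ℕ, (2 : ℤ) ^ n ∣ m) → m = 0 := by
    intro m hm
    by_contra h
    have h1 := Int.natAbs_dvd_natAbs.2 (hm m.natAbs)
    rw [Int.natAbs_pow] at h1
    have h2 := Nat.le_of_dvd (Int.natAbs_pos.2 h) h1
    have h3 : m.natAbs < 2 ^ m.natAbs := Nat.lt_two_pow_self
    simp at h2
    omega
  funext i
  have := hz _ (fun n => key n u v h i)
  omega

end Pool.Agent.W380.WB
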