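import Mathlib

/-! # The Green function of a lazy walk on the integer lattice of rank three -/

set_option autoImplicit false

namespace Pool.Agent.W380.WB

open Finset

/-- `n`-step probabilities of the lazy walk on the integers -/
noncomputable def q (n : ℕ) (x : ℤ) : ℝ :=
  if (n : ℤ) + x < 0 then 0 else (Nat.choose (2 * n) ((n : ℤ) + x).toNat : ℝ) / 4 ^ n

theorem q_nonneg (n : ℕ) (x : ℤ) : 0 ≤ q n x := by
  unfold q
  split_ifs
  · exact le_rfl
  · positivity

theorem q_zero (x : ℤ) : q 0 x = if x = 0 then 1 else 0 := by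
  unfold q
  rcases lt_trichotomy x 0 with h | rfl | h
  · rw [if_pos (by simpa using h), if_neg h.ne]
  · simp
  · rw [if_neg (by simpa using h.le), if_neg h.ne']
    obtain ⟨k, hk⟩ : ∃ k : ℕ, x = k + 1 := ⟨(x - 1).toNat, by omega⟩
    subst hk
    have : ((0 : ℕ) + ((k : ℤ) + 1)).toNat = k + 1 := by omega
    rw [this]
    simp

theorem q_succ (n : ℕ) (x : ℤ) :
    q (n + 1) x = 1 / 4 * q n (x - 1) + 1 / 2 * q n x + 1 / 4 * q n (x + 1) := by
  unfold q
  have hp : (4 : ℝ) ^ (n + 1) = 4 ^ n * 4 := pow_succ _ _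
  have h4 : (4 : ℝ) ^ n ≠ 0 := by positivity
  rcases lt_trichotomy ((n : ℤ) + x + 1) 0 with h | h | h
  · rw [if_pos (by push_cast; omega), if_pos (by omega), if_pos (by omega), if_pos (by omega)]
    ring
  · rw [if_neg (by push_cast; omega), if_pos (by omega), if_pos (by omega), if_neg (by omega)]
    have e1 : (((n + 1 : ℕ) : ℤ) + x).toNat = 0 := by push_cast; omega
    have e2 : ((n : ℤ) + (x + 1)).toNat = 0 := by omega
    rw [e1, e2, Nat.choose_zero_right, Nat.choose_zero_right, hp]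
    push_cast
    field_simp
    ring
  · rcases eq_or_lt_of_le (show 0 ≤ (n : ℤ) + x by omega) with h0 | h0
    · rw [if_neg (by push_cast; omega), if_pos (by omega), if_neg (by omega), if_neg (by omega)]
      have e1 : (((n + 1 : ℕ) : ℤ) + x).toNat = 1 := by push_cast; omega
      have e2 : ((n : ℤ) + (x + 1)).toNat = 1 := by omega
      have e3 : ((n : ℤ) + x).toNat = 0 := by omega
      rw [e1, e2, e3, Nat.choose_zero_right, Nat.choose_one_right, Nat.choose_one_right, hp]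
      push_cast
      field_simp
      ring
    · rw [if_neg (by push_cast; omega), if_neg (by omega), if_neg (by omega), if_neg (by omega)]
      obtain ⟨k, hk⟩ : ∃ k : ℕ, (n : ℤ) + x = k + 1 := ⟨((n : ℤ) + x - 1).toNat, by omega⟩
      have e1 : (((n + 1 : ℕ) : ℤ) + x).toNat = k + 2 := by push_cast; omega
      have e2 : ((n : ℤ) + (x + 1)).toNat = k + 2 := by omega
      have e3 : ((n : ℤ) + x).toNat = k + 1 := by omega
      have e4 : ((n : ℤ) + (x - 1)).toNat = k := by omega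
      rw [e1, e2, e3, e4, hp]
      have h5 : (2 * (n + 1)).choose (k + 2) =
          (2 * n).choose k + 2 * (2 * n).choose (k + 1) + (2 * n).choose (k + 2) := by
        rw [show 2 * (n + 1) = 2 * n + 1 + 1 by ring, Nat.choose_succ_succ, Nat.choose_succ_succ,
          Nat.choose_succ_succ (2 * n) (k + 1)]
        ring
      rw [h5]
      push_cast
      field_simp
      ring

/-- the return probabilities -/
noncomputable def r (n : ℕ) : ℝ := (Nat.centralBinom n : ℝ) / 4 ^ n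

theorem r_nonneg (n : ℕ) : 0 ≤ r n := by unfold r; positivity

theorem q_le (n : ℕ) (x : ℤ) : q n x ≤ r n := by
  unfold q r
  split_ifs
  · positivity
  · gcongr
    exact Nat.choose_le_centralBinom _ _

theorem r_succ (n : ℕ) : r (n + 1) = r n * ((2 * n + 1) / (2 * n + 2)) := by
  unfold r
  have h := Nat.succ_mul_centralBinom_succ n
  have h' : ((n : ℝ) + 1) * (Nat.centralBinom (n + 1) : ℝ) =
      2 * (2 * n + 1) * (Nat.centralBinom n : ℝ) := by exact_mod_cast h
  have h1 : ((n : ℝ) + 1) ≠ 0 := by positivity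
  have h2 : (Nat.centralBinom (n + 1) : ℝ) = 2 * (2 * n + 1) * (Nat.centralBinom n : ℝ) / (n + 1) := by
    rw [eq_div_iff h1]
    linarith
  rw [h2, pow_succ]
  have h4 : (4 : ℝ) ^ n ≠ 0 := by positivity
  field_simp
  ring

theorem r_sq (n : ℕ) : r n ^ 2 * (2 * n + 1) ≤ 1 := by
  induction n with
  | zero => simp [r]
  | succ n ih =>
    rw [r_succ]
    have h0 : (0 : ℝ) < 2 * n + 2 := by positivity
    have h1 : (r n * ((2 * n + 1) / (2 * n + 2))) ^ 2 * (2 * ((n + 1 : ℕ) : ℝ) + 1) =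
        (r n ^ 2 * (2 * n + 1)) * ((2 * n + 1) * (2 * n + 3) / (2 * n + 2) ^ 2) := by
      push_cast
      field_simp
      ring
    rw [h1]
    have h2 : ((2 * (n : ℝ) + 1) * (2 * n + 3) / (2 * n + 2) ^ 2) ≤ 1 := by
      rw [div_le_one (by positivity)]
      nlinarith
    have h3 : (0 : ℝ) ≤ ((2 * (n : ℝ) + 1) * (2 * n + 3) / (2 * n + 2) ^ 2) := by positivity
    have h4 : (0 : ℝ) ≤ r n ^ 2 * (2 * n + 1) := by positivity
    calc (r n ^ 2 * (2 * n + 1)) * ((2 * n + 1) * (2 * n + 3) / (2 * n + 2) ^ 2) ≤ 1 * 1 := by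
          gcongr
      _ = 1 := by ring

theorem r_cube_le (n : ℕ) : r n ^ 3 ≤ (((n + 1 : ℕ) : ℝ) ^ (3 / 2 : ℝ))⁻¹ := by
  have h0 : (0 : ℝ) < ((n + 1 : ℕ) : ℝ) := by positivity
  have hs : 0 < √((n + 1 : ℕ) : ℝ) := Real.sqrt_pos.2 h0
  have h1 : r n ≤ (√((n + 1 : ℕ) : ℝ))⁻¹ := by
    rw [← Real.sqrt_inv]
    apply Real.le_sqrt_of_sq_le
    rw [← one_div, le_div_iff₀ h0]
    refine le_trans ?_ (r_sq n)
    gcongr
    push_cast
    have : (0 : ℝ) ≤ n := Nat.cast_nonneg n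
    linarith
  have h2 : (((n + 1 : ℕ) : ℝ) ^ (3 / 2 : ℝ))⁻¹ = ((√((n + 1 : ℕ) : ℝ))⁻¹) ^ 3 := by
    rw [inv_pow, Real.sqrt_eq_rpow, ← Real.rpow_natCast, ← Real.rpow_mul h0.le]
    norm_num
  rw [h2]
  exact pow_le_pow_left₀ (r_nonneg n) h1 3

theorem r_cube_summable : Summable fun n => r n ^ 3 := by
  have h1 : Summable fun n : ℕ => ((n : ℝ) ^ (3 / 2 : ℝ))⁻¹ :=
    Real.summable_nat_rpow_inv.2 (by norm_num)
  have h2 := (summable_nat_add_iff 1).2 h1
  exact Summable.of_nonneg_of_le (fun n => pow_nonneg (r_nonneg n) 3) r_cube_le h2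

/-- `n`-step probabilities in rank three -/
noncomputable def Q (n : ℕ) (x : Fin 3 → ℤ) : ℝ := ∏ i, q n (x i)

theorem Q_nonneg (n : ℕ) (x : Fin 3 → ℤ) : 0 ≤ Q n x := Finset.prod_nonneg fun i _ => q_nonneg _ _

theorem Q_le (n : ℕ) (x : Fin 3 → ℤ) : Q n x ≤ r n ^ 3 := by
  unfold Q
  calc ∏ i, q n (x i) ≤ ∏ _i : Fin 3, r n :=
        Finset.prod_le_prod (fun i _ => q_nonneg _ _) fun i _ => q_le _ _
    _ = r n ^ 3 := by simp

theorem Q_summable (x : Fin 3 → ℤ) : Summable fun n => Q n x :=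
  Summable.of_nonneg_of_le (fun n => Q_nonneg n x) (fun n => Q_le n x) r_cube_summable

theorem Q_zero (x : Fin 3 → ℤ) : Q 0 x = if x = 0 then 1 else 0 := by
  unfold Q
  simp only [q_zero]
  split_ifs with h
  · subst h; simp
  · obtain ⟨i, hi⟩ : ∃ i, x i ≠ 0 := by
      by_contra hcon
      push Not at hcon
      exact h (funext hcon)
    exact Finset.prod_eq_zero (Finset.mem_univ i) (if_neg hi)

/-- the weights of the steps -/
noncomputable def w1 : Fin 3 → ℝ := ![1 / 4, 1 / 2, 1 / 4]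

/-- the weight of a step in rank three -/
noncomputable def wt (p : Fin 3 → Fin 3) : ℝ := ∏ i, w1 (p i)

/-- the step -/
def ofs (p : Fin 3 → Fin 3) : Fin 3 → ℤ := fun i => ((p i : ℕ) : ℤ) - 1

theorem w1_pos (j : Fin 3) : 0 < w1 j := by
  fin_cases j <;> simp [w1]

theorem wt_pos (p : Fin 3 → Fin 3) : 0 < wt p := Finset.prod_pos fun i _ => w1_pos _

theorem wt_sum : ∑ p, wt p = 1 := by
  unfold wt
  have h := Finset.prod_univ_sum (fun _ : Fin 3 => (Finset.univ : Finset (Fin 3)))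
    (fun _ j => w1 j)
  rw [Fintype.piFinset_univ] at h
  rw [← h]
  apply Finset.prod_eq_one
  intro i _
  rw [Fin.sum_univ_three]
  simp [w1]
  norm_num

theorem Q_avg (n : ℕ) (x : Fin 3 → ℤ) : ∑ p, wt p * Q n (x + ofs p) = Q (n + 1) x := by
  unfold wt Q
  have h := Finset.prod_univ_sum (fun _ : Fin 3 => (Finset.univ : Finset (Fin 3)))
    (fun i j => w1 j * q n (x i + (((j : ℕ) : ℤ) - 1)))
  rw [Fintype.piFinset_univ] at h
  have h2 : ∀ i, q (n + 1) (x i) = ∑ j : Fin 3, w1 j * q n (x i + (((j : ℕ) : ℤ) - 1)) := by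
    intro i
    rw [q_succ, Fin.sum_univ_three]
    simp [w1]
    ring_nf
  rw [Finset.prod_congr rfl (fun i _ => h2 i), h]
  refine Finset.sum_congr rfl fun p _ => ?_
  rw [← Finset.prod_mul_distrib]
  rfl

/-- the Green function -/
noncomputable def Gr (x : Fin 3 → ℤ) : ℝ := ∑' n, Q n x

theorem Gr_avg (x : Fin 3 → ℤ) :
    ∑ p, wt p * Gr (x + ofs p) = Gr x - if x = 0 then 1 else 0 := by
  unfold Gr
  have h1 : ∀ p, wt p * ∑' n, Q n (x + ofs p) = ∑' n, wt p * Q n (x + ofs p) :=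
    fun p => (tsum_mul_left).symm
  rw [Finset.sum_congr rfl (fun p _ => h1 p),
    ← Summable.tsum_finsetSum (fun p _ => (Q_summable _).mul_left _)]
  simp only [Q_avg]
  rw [(Q_summable x).tsum_eq_zero_add, Q_zero]
  ring

theorem Gr_nonneg (x : Fin 3 → ℤ) : 0 ≤ Gr x := tsum_nonneg fun n => Q_nonneg n x

theorem Gr_le (x : Fin 3 → ℤ) : Gr x ≤ ∑' n, r n ^ 3 :=
  (Q_summable x).tsum_le_tsum (fun n => Q_le n x) r_cube_summable

/-- the bounded function -/
noncomputable def s (x : Fin 3 → ℤ) : ℝ := 1 - 2 * Gr x / (1 + 2 * Gr 0)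

theorem den_pos : 0 < 1 + 2 * Gr 0 := by
  have := Gr_nonneg 0
  linarith

theorem s_zero : s 0 = 1 / (1 + 2 * Gr 0) := by
  unfold s
  have := den_pos
  field_simp
  ring

theorem s_avg (x : Fin 3 → ℤ) :
    ∑ p, wt p * s (x + ofs p) = s x + if x = 0 then 2 * s 0 else 0 := by
  unfold s
  have h1 : ∀ p, wt p * (1 - 2 * Gr (x + ofs p) / (1 + 2 * Gr 0)) =
      wt p - 2 / (1 + 2 * Gr 0) * (wt p * Gr (x + ofs p)) := fun p => by ring
  rw [Finset.sum_congr rfl (fun p _ => h1 p), Finset.sum_sub_distrib, wt_sum, ← Finset.mul_sum,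
    Gr_avg]
  have := den_pos
  split_ifs
  · field_simp
    ring
  · field_simp
    ring

theorem s_bdd : ∃ C : ℝ, ∀ x, |s x| ≤ C := by
  refine ⟨1 + 2 * ∑' n, r n ^ 3, fun x => ?_⟩
  unfold s
  have h0 := Gr_nonneg x
  have h1 := Gr_le x
  have h2 := Gr_nonneg 0
  have h3 : 2 * Gr x / (1 + 2 * Gr 0) ≤ 2 * Gr x := div_le_self (by linarith) (by linarith)
  have h4 : 0 ≤ 2 * Gr x / (1 + 2 * Gr 0) := div_nonneg (by linarith) (by linarith)
  rw [abs_le]
  constructor <;> linarith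

end Pool.Agent.W380.WB
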