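import Pool.Agent.W380.WB.Amen
import Pool.Agent.W380.WB.Green

/-! # A bounded harmonic function -/

set_option autoImplicit false

namespace Pool.Agent.W380.WB

open Filter

theorem dg_length {w w' : List X} (h : dg w = dg w') : w.length = w'.length := by
  have := congrArg List.length h
  simpa [dg] using this

theorem dg_Tf_congr (v : V) {w w' : List X} (h : dg w = dg w') : dg (Tf v w) = dg (Tf v w') := by
  induction w generalizing v w' with
  | nil =>
    cases w' with
    | nil => rfl
    | cons l w' => simp [dg] at h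
  | cons l w ih =>
    cases w' with
    | nil => simp [dg] at h
    | cons l' w' =>
      obtain ⟨x, c, d⟩ := l
      obtain ⟨x', c', d'⟩ := l'
      rw [dg_cons, dg_cons] at h
      have h1 : x = x' := (List.cons.inj h).1
      have h2 : dg w = dg w' := (List.cons.inj h).2
      subst h1
      simp only [Tf, dg_cons]
      rw [ih _ h2]

/-- the last bit `d` of a word, `b` for the empty word -/
def ldA : Bool → List X → Bool
  | b, [] => b
  | _, l :: w => ldA l.2.2 w

/-- the last bit `d` of a word -/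
def ld (w : List X) : Bool := ldA false w

theorem ldA_Tf (b : Bool) (v : V) (w : List X) : ldA b (Tf v w) = ldA b w := by
  induction w generalizing v b with
  | nil => rfl
  | cons l w ih =>
    obtain ⟨x, c, d⟩ := l
    simp only [Tf, ldA, ih]

theorem ldA_Ff (b : Bool) (v : V) (w : List X) : ldA b (Ff v w) = ldA b w := by
  induction w generalizing v b with
  | nil => rfl
  | cons l w ih =>
    obtain ⟨x, c, d⟩ := l
    simp only [Ff]
    split_ifs <;> simp only [ldA, ih]

/-- does `D v` change the last bit of a word with the given digits? -/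
def tog : V → List Dg → Bool
  | _, [] => false
  | v, x :: l => if x = par v then tog (half v) l else (decide (x = par (v + e1)) && l.isEmpty)

theorem ldA_Df (b : Bool) (v : V) (w : List X) :
    ldA b (Df v w) = xor (ldA b w) (tog v (dg w)) := by
  induction w generalizing v b with
  | nil => simp [Df, ldA, dg, tog]
  | cons l w ih =>
    obtain ⟨x, c, d⟩ := l
    simp only [Df, dg_cons, tog]
    by_cases h1 : x = par v
    · rw [if_pos h1, if_pos h1]
      simp only [ldA]
      exact ih _ _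
    · rw [if_neg h1, if_neg h1]
      by_cases h2 : x = par (v + e1)
      · rw [if_pos h2]
        simp only [ldA]
        cases w with
        | nil => simp [ldA, dg, h2]
        | cons l' w' => simp [ldA, dg]
      · rw [if_neg h2]
        simp only [ldA]
        simp [h2]

/-- elements acting on digits and toggling the last bit in a way that depends only on digits -/
def Rel (g : Equiv.Perm (List X)) : Prop :=
  ∀ w w', dg w = dg w' → dg (g w) = dg (g w') ∧ xor (ld (g w)) (ld (g w')) = xor (ld w) (ld w')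

theorem Rel.mul {g h : Equiv.Perm (List X)} (hg : Rel g) (hh : Rel h) : Rel (g * h) := by
  intro w w' hw
  obtain ⟨h1, h2⟩ := hh w w' hw
  obtain ⟨h3, h4⟩ := hg _ _ h1
  exact ⟨h3, h4.trans h2⟩

theorem Rel.T (v : V) : Rel (T v) := fun w w' h =>
  ⟨dg_Tf_congr v h, by simp only [ld, T_apply, ldA_Tf]⟩

theorem Rel.F (v : V) : Rel (F v) := fun w w' h =>
  ⟨by rw [F_apply, F_apply, dg_Ff, dg_Ff, h], by simp only [ld, F_apply, ldA_Ff]⟩

theorem Rel.D (v : V) : Rel (D v) := fun w w' h =>
  ⟨by rw [D_apply, D_apply, dg_Df, dg_Df, h], by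
    simp only [ld, D_apply, ldA_Df, h]
    cases ldA false w <;> cases ldA false w' <;> cases tog v (dg w') <;> rfl⟩

theorem gens_cases {P : Equiv.Perm (List X) → Prop} (hT : ∀ v, P (T v)) (hF : P (F 0))
    (hD : P (D 0)) {g : Equiv.Perm (List X)} (hg : g ∈ gens) : P g ∧ P g⁻¹ := by
  rcases hg with (h | h) | ⟨i, rfl⟩
  · rw [show g = WB.F 0 from h, F_inv]; exact ⟨hF, hF⟩
  · rw [show g = WB.D 0 from h, D_inv]; exact ⟨hD, hD⟩
  · simp only
    rw [← T_neg]
    exact ⟨hT _, hT _⟩

/-- induction by multiplication on the right by generators -/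
theorem G_induction {P : Equiv.Perm (List X) → Prop} (h1 : P 1)
    (hT : ∀ g ∈ G, ∀ v, P g → P (g * T v)) (hF : ∀ g ∈ G, P g → P (g * F 0))
    (hD : ∀ g ∈ G, P g → P (g * D 0)) {g : Equiv.Perm (List X)} (hg : g ∈ G) : P g := by
  induction hg using Subgroup.closure_induction_right with
  | one => exact h1
  | mul_right x hx y hy ih =>
    exact (gens_cases (P := fun z => P (x * z)) (fun v => hT x hx v ih) (hF x hx ih)
      (hD x hx ih) hy).1
  | mul_inv_cancel x hx y hy ih =>
    exact (gens_cases (P := fun z => P (x * z)) (fun v => hT x hx v ih) (hF x hx ih)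
      (hD x hx ih) hy).2

theorem Rel_of_mem {g : Equiv.Perm (List X)} (hg : g ∈ G) : Rel g := by
  refine G_induction (P := Rel) (fun w w' h => ⟨h, rfl⟩) (fun g _ v ih => ih.mul (Rel.T v))
    (fun g _ ih => ih.mul (Rel.F 0)) (fun g _ ih => ih.mul (Rel.D 0)) hg

/-! ### the position -/

theorem Lam_mono {k l : ℕ} (h : k ≤ l) : Lam k ⊆ Lam l := by
  intro v hv i
  have h1 : (2 : ℤ) ^ k ≤ 2 ^ l := pow_le_pow_right₀ (by norm_num) h
  have := hv i
  constructor <;> linarith

theorem K_mono {k l : ℕ} (h : k ≤ l) : K k ≤ K l := by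
  refine Subgroup.closure_mono ?_
  rintro g ⟨v, hv, h1⟩
  exact ⟨v, Lam_mono h hv, h1⟩

theorem exists_Lam (v : V) : ∃ k, v ∈ Lam k := by
  refine ⟨(v 0).natAbs + (v 1).natAbs + (v 2).natAbs, fun i => ?_⟩
  have h1 : (v 0).natAbs + (v 1).natAbs + (v 2).natAbs <
      2 ^ ((v 0).natAbs + (v 1).natAbs + (v 2).natAbs) := Nat.lt_two_pow_self
  have h2 : (((v 0).natAbs + (v 1).natAbs + (v 2).natAbs : ℕ) : ℤ) <
      2 ^ ((v 0).natAbs + (v 1).natAbs + (v 2).natAbs) := by exact_mod_cast h1
  have h3 : (v i).natAbs ≤ (v 0).natAbs + (v 1).natAbs + (v 2).natAbs := by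
    fin_cases i <;> simp <;> omega
  constructor <;> omega

/-- every element is a product of an element of some `K k` and a translation -/
theorem exists_form {g : Equiv.Perm (List X)} (hg : g ∈ G) :
    ∃ k, ∃ a ∈ K k, ∃ v : V, g = a * T v := by
  refine G_induction (P := fun g => ∃ k, ∃ a ∈ K k, ∃ v : V, g = a * T v)
    ⟨0, 1, (K 0).one_mem, 0, by rw [T_zero, one_mul]⟩ ?_ ?_ ?_ hg
  · rintro g - u ⟨k, a, ha, v, rfl⟩
    exact ⟨k, a, ha, v + u, by rw [T_add, mul_assoc]⟩
  · rintro g - ⟨k, a, ha, v, rfl⟩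
    obtain ⟨l, hl⟩ := exists_Lam v
    refine ⟨max k l, a * F v, (K _).mul_mem (K_mono (le_max_left _ _) ha)
      (K_mono (le_max_right _ _) (F_mem_K hl)), v, ?_⟩
    rw [mul_assoc, mul_assoc, T_mul_F, add_zero]
  · rintro g - ⟨k, a, ha, v, rfl⟩
    obtain ⟨l, hl⟩ := exists_Lam v
    refine ⟨max k l, a * D v, (K _).mul_mem (K_mono (le_max_left _ _) ha)
      (K_mono (le_max_right _ _) (D_mem_K hl)), v, ?_⟩
    rw [mul_assoc, mul_assoc, T_mul_D, add_zero]

theorem exists_pos {g : Equiv.Perm (List X)} (hg : g ∈ G) :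
    ∃ v : V, ∀ w, dg (g w) = dg (Tf v w) := by
  obtain ⟨k, a, ha, v, rfl⟩ := exists_form hg
  exact ⟨v, fun w => by rw [Equiv.Perm.mul_apply, dg_K ha]; rfl⟩

open Classical in
/-- the position -/
noncomputable def pos (g : Equiv.Perm (List X)) : V :=
  if h : ∃ v : V, ∀ w, dg (g w) = dg (Tf v w) then h.choose else 0

theorem pos_eq {g : Equiv.Perm (List X)} {v : V} (h : ∀ w, dg (g w) = dg (Tf v w)) :
    pos g = v := by
  have hex : ∃ v : V, ∀ w, dg (g w) = dg (Tf v w) := ⟨v, h⟩
  unfold pos
  rw [dif_pos hex]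
  exact eq_of_dg fun w => (hex.choose_spec w).symm.trans (h w)

theorem dg_pos {g : Equiv.Perm (List X)} (hg : g ∈ G) (w : List X) :
    dg (g w) = dg (Tf (pos g) w) := by
  obtain ⟨v, hv⟩ := exists_pos hg
  rw [pos_eq hv]
  exact hv w

theorem pos_mul {g h : Equiv.Perm (List X)} (hg : g ∈ G) (hh : h ∈ G) :
    pos (g * h) = pos g + pos h := by
  apply pos_eq
  intro w
  rw [Equiv.Perm.mul_apply, dg_pos hg, Tf_add]
  exact dg_Tf_congr _ (dg_pos hh w)

theorem pos_T (v : V) : pos (T v) = v := pos_eq fun _ => rfl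

theorem pos_one : pos 1 = 0 := by rw [← T_zero, pos_T]

theorem pos_F (v : V) : pos (F v) = 0 := pos_eq fun w => by
  rw [F_apply, dg_Ff, Tf_zero]

theorem pos_D (v : V) : pos (D v) = 0 := pos_eq fun w => by
  rw [D_apply, dg_Df, Tf_zero]

/-! ### the sign -/

/-- test words -/
def z : ℕ → List X
  | 0 => [(par e1, false, false)]
  | n + 1 => zl :: z n

theorem ld_z (m : ℕ) (b : Bool) : ldA b (z m) = false := by
  induction m generalizing b with
  | zero => rfl
  | succ m ih => exact ih _

theorem dg_z_ne (m : ℕ) : (dg (z m)).isEmpty = false := by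
  cases m <;> rfl

theorem tog_zero (m : ℕ) : tog 0 (dg (z m)) = true := by
  induction m with
  | zero =>
    change (if par e1 = par 0 then tog (half 0) [] else
      (decide (par e1 = par (0 + e1)) && List.isEmpty [])) = true
    rw [if_neg par_zero_ne_e1.symm, zero_add]
    simp
  | succ m ih =>
    change (if par 0 = par 0 then tog (half 0) (dg (z m)) else _) = true
    rw [if_pos rfl, half_zero]
    exact ih

theorem dvd_of_tog (m : ℕ) : ∀ v : V, tog v (dg (z m)) = true → ∀ i, (2 : ℤ) ^ (m + 1) ∣ v i := by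
  induction m with
  | zero =>
    intro v hv i
    change (if par e1 = par v then tog (half v) [] else
      (decide (par e1 = par (v + e1)) && List.isEmpty [])) = true at hv
    by_cases h1 : par e1 = par v
    · rw [if_pos h1] at hv
      simp [tog] at hv
    · rw [if_neg h1] at hv
      have h2 : par e1 = par (v + e1) := by
        simpa using hv
      have h3 := par_eq_par_iff.1 h2 i
      simp only [Pi.add_apply] at h3
      rw [zero_add, pow_one]
      omega
  | succ m ih =>
    intro v hv i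
    change (if par 0 = par v then tog (half v) (dg (z m)) else
      (decide (par 0 = par (v + e1)) && (dg (z m)).isEmpty)) = true at hv
    by_cases h1 : par 0 = par v
    · rw [if_pos h1] at hv
      obtain ⟨a, ha⟩ := ih _ hv i
      have h3 := par_eq_par_iff.1 h1 i
      simp only [half] at ha
      simp only [Pi.zero_apply] at h3
      refine ⟨a, ?_⟩
      rw [pow_succ', mul_assoc, ← ha]
      omega
    · rw [if_neg h1, dg_z_ne] at hv
      simp at hv

theorem tog_eventually {v : V} (hv : v ≠ 0) : ∀ᶠ m in atTop, tog v (dg (z m)) = false := by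
  obtain ⟨i, hi⟩ : ∃ i, v i ≠ 0 := by
    by_contra hcon
    push Not at hcon
    exact hv (funext hcon)
  filter_upwards [eventually_ge_atTop (v i).natAbs] with m hm
  by_contra h
  have h1 := dvd_of_tog m v (by simpa using h) i
  have h2 := Int.natAbs_dvd_natAbs.2 h1
  rw [Int.natAbs_pow] at h2
  have h3 := Nat.le_of_dvd (Int.natAbs_pos.2 hi) h2
  have h4 : (v i).natAbs < 2 ^ (v i).natAbs := Nat.lt_two_pow_self
  have h5 : 2 ^ (v i).natAbs ≤ 2 ^ (m + 1) := Nat.pow_le_pow_right (by norm_num) (by omega)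
  simp at h3
  omega

/-- the approximate sign -/
noncomputable def sg (g : Equiv.Perm (List X)) (m : ℕ) : Bool := ld (g (T (-pos g) (z m)))

theorem sg_one (m : ℕ) : sg 1 m = false := by
  unfold sg
  rw [pos_one, neg_zero, T_zero]
  exact ld_z m false

theorem sg_T {g : Equiv.Perm (List X)} (hg : g ∈ G) (v : V) (m : ℕ) : sg (g * T v) m = sg g m := by
  unfold sg
  rw [pos_mul hg (T_mem v), pos_T, Equiv.Perm.mul_apply, ← Equiv.Perm.mul_apply (T v), ← T_add]
  congr 3
  abel_nf

theorem sg_F {g : Equiv.Perm (List X)} (hg : g ∈ G) (m : ℕ) : sg (g * F 0) m = sg g m := by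
  have h1 : (g * F 0) * T (-pos g) = (g * T (-pos g)) * F (pos g) := by
    rw [mul_assoc, mul_assoc, T_mul_F, neg_add_cancel]
  have h2 := Rel_of_mem (G.mul_mem hg (T_mem (-pos g))) (F (pos g) (z m)) (z m)
    (by rw [F_apply, dg_Ff])
  have h3 : xor (ld (F (pos g) (z m))) (ld (z m)) = false := by
    simp only [ld, F_apply, ldA_Ff, bne_self_eq_false]
  unfold sg
  rw [pos_mul hg (F_mem 0), pos_F, add_zero, ← Equiv.Perm.mul_apply, h1, Equiv.Perm.mul_apply]
  have h4 := h2.2.trans h3
  rw [← Equiv.Perm.mul_apply g (T (-pos g)) (z m)]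
  simpa using h4

theorem sg_D {g : Equiv.Perm (List X)} (hg : g ∈ G) (m : ℕ) :
    sg (g * D 0) m = xor (sg g m) (tog (pos g) (dg (z m))) := by
  have h1 : (g * D 0) * T (-pos g) = (g * T (-pos g)) * D (pos g) := by
    rw [mul_assoc, mul_assoc, T_mul_D, neg_add_cancel]
  have h2 := Rel_of_mem (G.mul_mem hg (T_mem (-pos g))) (D (pos g) (z m)) (z m)
    (by rw [D_apply, dg_Df])
  have h3 : xor (ld (D (pos g) (z m))) (ld (z m)) = tog (pos g) (dg (z m)) := by
    simp only [ld, D_apply, ldA_Df]
    cases ldA false (z m) <;> cases tog (pos g) (dg (z m)) <;> rfl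
  unfold sg
  rw [pos_mul hg (D_mem 0), pos_D, add_zero, ← Equiv.Perm.mul_apply, h1, Equiv.Perm.mul_apply]
  have h4 := h2.2.trans h3
  rw [← h4, ← Equiv.Perm.mul_apply g (T (-pos g)) (z m)]
  generalize ld ((g * T (-pos g)) (D (pos g) (z m))) = a
  generalize ld ((g * T (-pos g)) (z m)) = b
  cases a <;> cases b <;> rfl

theorem sg_dich {g : Equiv.Perm (List X)} (hg : g ∈ G) :
    ∃ b, ∀ᶠ m in atTop, sg g m = b := by
  refine G_induction (P := fun g => ∃ b, ∀ᶠ m in atTop, sg g m = b)
    ⟨false, Eventually.of_forall sg_one⟩ ?_ ?_ ?_ hg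
  · rintro g hg v ⟨b, hb⟩
    exact ⟨b, by simpa only [sg_T hg] using hb⟩
  · rintro g hg ⟨b, hb⟩
    exact ⟨b, by simpa only [sg_F hg] using hb⟩
  · rintro g hg ⟨b, hb⟩
    by_cases h : pos g = 0
    · refine ⟨!b, ?_⟩
      filter_upwards [hb] with m hm
      rw [sg_D hg, h, tog_zero, hm]
      simp
    · refine ⟨b, ?_⟩
      filter_upwards [hb, tog_eventually h] with m hm hm'
      rw [sg_D hg, hm', hm]
      simp

open Classical in
/-- the sign -/
noncomputable def sgn (g : Equiv.Perm (List X)) : ℝ := if ∀ᶠ m in atTop, sg g m = true then -1 else 1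

theorem sgn_eq {g : Equiv.Perm (List X)} {b : Bool} (h : ∀ᶠ m in atTop, sg g m = b) :
    sgn g = if b then -1 else 1 := by
  unfold sgn
  cases b with
  | true => rw [if_pos h]; simp
  | false =>
    rw [if_neg]
    · simp
    · intro h'
      obtain ⟨m, h1, h2⟩ := (h.and h').exists
      rw [h1] at h2
      exact absurd h2 (by simp)

theorem sgn_abs (g : Equiv.Perm (List X)) : |sgn g| = 1 := by
  unfold sgn
  split_ifs <;> simp

theorem sgn_one : sgn 1 = 1 := by
  rw [sgn_eq (b := false) (Eventually.of_forall sg_one)]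
  simp

theorem sgn_T {g : Equiv.Perm (List X)} (hg : g ∈ G) (v : V) : sgn (g * T v) = sgn g := by
  obtain ⟨b, hb⟩ := sg_dich hg
  rw [sgn_eq hb]
  exact sgn_eq (by simpa only [sg_T hg] using hb)

theorem sgn_F {g : Equiv.Perm (List X)} (hg : g ∈ G) : sgn (g * F 0) = sgn g := by
  obtain ⟨b, hb⟩ := sg_dich hg
  rw [sgn_eq hb]
  exact sgn_eq (by simpa only [sg_F hg] using hb)

theorem sgn_D {g : Equiv.Perm (List X)} (hg : g ∈ G) :
    sgn (g * D 0) = if pos g = 0 then - sgn g else sgn g := by
  obtain ⟨b, hb⟩ := sg_dich hg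
  rw [sgn_eq hb]
  split_ifs with h h'
  · have : ∀ᶠ m in atTop, sg (g * D 0) m = !b := by
      filter_upwards [hb] with m hm
      rw [sg_D hg, h, tog_zero, hm]
      simp
    rw [sgn_eq this]
    simp [h']
  · have : ∀ᶠ m in atTop, sg (g * D 0) m = !b := by
      filter_upwards [hb] with m hm
      rw [sg_D hg, h, tog_zero, hm]
      simp
    rw [sgn_eq this]
    simp [h']
  · have : ∀ᶠ m in atTop, sg (g * D 0) m = b := by
      filter_upwards [hb, tog_eventually h] with m hm hm'
      rw [sg_D hg, hm', hm]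
      simp
    rw [sgn_eq this, if_pos (by assumption)]
  · have : ∀ᶠ m in atTop, sg (g * D 0) m = b := by
      filter_upwards [hb, tog_eventually h] with m hm hm'
      rw [sg_D hg, hm', hm]
      simp
    rw [sgn_eq this, if_neg (by assumption)]

/-! ### the harmonic function -/

/-- the harmonic function -/
noncomputable def hf (g : Equiv.Perm (List X)) : ℝ := sgn g * s (pos g)

theorem hf_bdd : ∃ C : ℝ, ∀ g, |hf g| ≤ C := by
  obtain ⟨C, hC⟩ := s_bdd
  refine ⟨C, fun g => ?_⟩
  unfold hf
  rw [abs_mul, sgn_abs, one_mul]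
  exact hC _

theorem hf_T {g : Equiv.Perm (List X)} (hg : g ∈ G) (v : V) :
    hf (g * T v) = sgn g * s (pos g + v) := by
  unfold hf
  rw [sgn_T hg, pos_mul hg (T_mem v), pos_T]

theorem hf_F {g : Equiv.Perm (List X)} (hg : g ∈ G) : hf (g * F 0) = sgn g * s (pos g) := by
  unfold hf
  rw [sgn_F hg, pos_mul hg (F_mem 0), pos_F, add_zero]

theorem hf_D {g : Equiv.Perm (List X)} (hg : g ∈ G) :
    hf (g * D 0) = sgn g * s (pos g) - (if pos g = 0 then 2 * s 0 else 0) * sgn g := by
  unfold hf
  rw [sgn_D hg, pos_mul hg (D_mem 0), pos_D, add_zero]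
  split_ifs with h
  · rw [h]; ring
  · ring

/-- harmonicity -/
theorem hf_harm {g : Equiv.Perm (List X)} (hg : g ∈ G) :
    hf g = ∑ p, wt p / 3 * hf (g * T (ofs p)) + 1 / 3 * hf (g * F 0) + 1 / 3 * hf (g * D 0) := by
  have h1 : ∑ p, wt p / 3 * hf (g * T (ofs p)) =
      sgn g / 3 * ∑ p, wt p * s (pos g + ofs p) := by
    rw [Finset.mul_sum]
    refine Finset.sum_congr rfl fun p _ => ?_
    rw [hf_T hg]
    ring
  rw [h1, hf_F hg, hf_D hg, s_avg]
  unfold hf
  ring

theorem hf_one : hf 1 = s 0 := by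
  unfold hf
  rw [sgn_one, pos_one, one_mul]

theorem hf_D0 : hf (D 0) = - s 0 := by
  have h := hf_D G.one_mem
  rw [one_mul, sgn_one, pos_one] at h
  rw [h]
  simp
  ring

theorem hf_ne : hf 1 ≠ hf (D 0) := by
  rw [hf_one, hf_D0, s_zero]
  have := den_pos
  have h2 : 0 < 1 / (1 + 2 * Gr 0) := by positivity
  linarith

end Pool.Agent.W380.WB
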